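import Pool.Agent.R545.Nl.Cost

/-!
# Pure trees, restriction, and from decorated shapes to trees
-/

namespace Pool.Agent.R545.Nl

open Classical Pool.Agent.R545.Lc Pool.Agent.R545.Mw

section

variable {V W X L M : Type} {G : SimpleGraph X} {G1 : SimpleGraph V} {G2 : SimpleGraph W}
  {i : V → X} {j : W → X} {lam1 : V → L} {lam2 : W → M} {r : L → M → Prop} {k : ℕ}

theorem PT.nonempty {F : Set M} {B : Set V} (h : PT k G1 lam1 r F B) : B.Nonempty := by
  induction h with
  | single v _ => exact Set.singleton_nonempty v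
  | union A B _ _ _ _ ih1 _ => exact ih1.inl

theorem PT.pos {F : Set M} {B : Set V} (h : PT k G1 lam1 r F B) : 1 ≤ k := by
  induction h with
  | single v hk => exact hk
  | union A B _ _ _ _ ih1 _ => exact ih1

/-- A pure tree of the first side. -/
theorem nt_pure (h : Glued G G1 G2 i j (fun v w => r (lam1 v) (lam2 w))) {B : Set V}
    (hB : PT k G1 lam1 r (lam2 '' Set.univ) B) : NT G k (i '' B) := by
  induction hB with
  | single v hk =>
    rw [Set.image_singleton]
    exact NT.single (i v) hk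
  | union A B hd hA _ hAB ih1 ih2 =>
    obtain ⟨f, g, hfg⟩ := hAB
    obtain ⟨v0, _⟩ := hA.nonempty
    rw [Set.image_union]
    refine NT.union _ _ ((Set.disjoint_image_iff h.inj1).mpr hd) ih1 ih2 ?_
    have h1 := (nok_iff_cross (k := k) h A B ∅ ∅).mpr ⟨f, g, fun _ => f v0, fun _ => f v0, ?_,
      ?_, ?_⟩
    · simpa using h1
    · rw [Set.union_empty, Set.compl_empty]
      exact hfg
    · refine ⟨?_, ?_, ?_⟩
      · exact fun u hu => absurd hu (Set.notMem_empty u)
      · exact fun u hu => absurd hu (Set.notMem_empty u)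
      · exact fun u hu => absurd hu (Set.notMem_empty u)
    · refine ⟨?_, ?_, ?_, ?_⟩
      · exact fun _ _ w hw => absurd hw (Set.notMem_empty w)
      · exact fun _ _ w hw => absurd hw (Set.notMem_empty w)
      · exact fun _ _ w hw => absurd hw (Set.notMem_empty w)
      · exact fun _ _ w hw => absurd hw (Set.notMem_empty w)

theorem compl_full {A : Set W} (h : lam2 '' Set.univ ⊆ lam2 '' Aᶜ) :
    lam2 '' Aᶜ = lam2 '' Set.univ :=
  Set.Subset.antisymm (Set.image_mono (Set.subset_univ _)) h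

theorem full_mono {A B : Set W} (hAB : A ⊆ B) (h : lam2 '' Set.univ ⊆ lam2 '' Bᶜ) :
    lam2 '' Set.univ ⊆ lam2 '' Aᶜ :=
  h.trans (Set.image_mono (Set.compl_subset_compl.mpr hAB))

theorem lv_restrict (h : Glued G G1 G2 i j (fun v w => r (lam1 v) (lam2 w)))
    {A1 B1 : Set V} {A2 B2 : Set W} (hn : NOk G k (i '' A1 ∪ j '' A2) (i '' B1 ∪ j '' B2))
    (hf : lam2 '' Set.univ ⊆ lam2 '' (A2 ∪ B2)ᶜ) :
    ∃ f g : V → Fin k, LV G1 lam1 r (lam2 '' Set.univ) (lam2 '' Set.univ) (lam2 '' Set.univ)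
      A1 B1 f g := by
  obtain ⟨f1, g1, f2, g2, h1, -, -⟩ := (nok_iff_cross h A1 B1 A2 B2).mp hn
  rw [compl_full (full_mono Set.subset_union_left hf),
    compl_full (full_mono Set.subset_union_right hf), compl_full hf] at h1
  exact ⟨f1, g1, h1⟩

/-- Restriction to the first side, if no label of the second side is exhausted. -/
theorem nt_restrict (h : Glued G G1 G2 i j (fun v w => r (lam1 v) (lam2 w))) {A : Set X}
    (hA : NT G k A) : ∀ (A1 : Set V) (A2 : Set W), A = i '' A1 ∪ j '' A2 →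
      A1.Nonempty → lam2 '' Set.univ ⊆ lam2 '' A2ᶜ →
      PT k G1 lam1 r (lam2 '' Set.univ) A1 := by
  induction hA with
  | single x hk =>
    intro A1 A2 hA hne hf
    obtain ⟨v, hv⟩ := hne
    have h1 : i v ∈ ({x} : Set X) := by rw [hA]; exact Or.inl ⟨v, hv, rfl⟩
    have h2 : A1 = {v} := by
      ext u
      constructor
      · intro hu
        have h3 : i u ∈ ({x} : Set X) := by rw [hA]; exact Or.inl ⟨u, hu, rfl⟩
        exact h.inj1 (h3.trans h1.symm)
      · rintro rfl
        exact hv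
    rw [h2]
    exact PT.single v hk
  | union Y Z hd hY hZ hYZ ihY ihZ =>
    intro A1 A2 hA hne hf
    set B1 := i ⁻¹' Y
    set B2 := j ⁻¹' Y
    set C1 := i ⁻¹' Z
    set C2 := j ⁻¹' Z
    have hYe : Y = i '' B1 ∪ j '' B2 := by
      ext x
      rcases h.cover x with ⟨v, rfl⟩ | ⟨w, rfl⟩
      · rw [h.mem1]; rfl
      · rw [h.mem2]; rfl
    have hZe : Z = i '' C1 ∪ j '' C2 := by
      ext x
      rcases h.cover x with ⟨v, rfl⟩ | ⟨w, rfl⟩
      · rw [h.mem1]; rfl
      · rw [h.mem2]; rfl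
    have hA1 : A1 = B1 ∪ C1 := by
      ext v
      rw [← h.mem1 A1 A2, ← hA]
      rfl
    have hA2 : A2 = B2 ∪ C2 := by
      ext v
      rw [← h.mem2 A1 A2, ← hA]
      rfl
    rw [hA2] at hf
    have hf1 := full_mono (Set.subset_union_left (s := B2) (t := C2)) hf
    have hf2 := full_mono (Set.subset_union_right (s := B2) (t := C2)) hf
    rcases B1.eq_empty_or_nonempty with hB | hB
    · have h4 : A1 = C1 := by rw [hA1, hB, Set.empty_union]
      rw [h4] at hne ⊢
      exact ihZ C1 C2 hZe hne hf2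
    rcases C1.eq_empty_or_nonempty with hC | hC
    · have h4 : A1 = B1 := by rw [hA1, hC, Set.union_empty]
      rw [h4]
      exact ihY B1 B2 hYe hB hf1
    · rw [hYe, hZe] at hYZ
      rw [hA1]
      refine PT.union _ _ ?_ (ihY B1 B2 hYe hB hf1) (ihZ C1 C2 hZe hC hf2)
        (lv_restrict h hYZ hf)
      rw [Set.disjoint_left]
      intro v hv hv'
      exact Set.disjoint_left.mp hd hv hv'

/-- Joining two pure sets which do not exhaust any label. -/
theorem nok_join [Finite X] (h : Glued G G1 G2 i j (fun v w => r (lam1 v) (lam2 w)))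
    {A1 : Set V} {A2 : Set W} (hne : A1.Nonempty) (h1 : lam1 '' Set.univ ⊆ lam1 '' A1ᶜ)
    (h2 : lam2 '' Set.univ ⊆ lam2 '' A2ᶜ) (hc : cnt G (i '' A1 ∪ j '' A2) ≤ k) :
    NOk G k (i '' A1) (j '' A2) := by
  refine nok_of_labels ?_ (nb G (i '' A1 ∪ j '' A2)) (nb G (i '' A1 ∪ j '' A2)) ?_ ?_ ?_ ?_
  · obtain ⟨v, hv⟩ := hne
    exact ⟨i v, Or.inl ⟨v, hv, rfl⟩⟩
  · rintro _ ⟨u, hu, rfl⟩ _ ⟨v, hv, rfl⟩ he
    have h3 := (glued_nb11 h A1 A2 u v).mp he
    rw [compl_full h2] at h3
    have h4 := glued_nb11 h A1 ∅ u v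
    rw [Set.image_empty, Set.union_empty, Set.compl_empty] at h4
    exact h4.mpr h3
  · rintro _ ⟨u, hu, rfl⟩ _ ⟨v, hv, rfl⟩ he
    have h3 := (nb22 h A1 A2 u v).mp he
    rw [compl_full h1] at h3
    have h4 := nb22 h ∅ A2 u v
    rw [Set.image_empty, Set.empty_union, Set.compl_empty] at h4
    exact h4.mpr h3
  · exact fun u _ v _ he => he
  · rw [← Set.image_union]
    exact hc

/-! ### Chains -/

/-- The word of a chain, or the same without the first letter. -/
def SW (k : ℕ) (G : SimpleGraph V) (lam : V → L) (r : L → M → Prop) (F0 F : Set M)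
    (p : Dat L M) (A : Set V) (w : Wd) (C : Set V) : Prop :=
  Sg1 k G lam r F0 F p A w C ∨ ∃ (B : Set V) (w' : Wd), dat G lam r A = p ∧ Disjoint A B ∧
    PT k G lam r F0 B ∧ Sg1 k G lam r F0 F p (A ∪ B) w' C ∧
    w = ((), mc G lam r F F0 F A B) :: w'

theorem Sg1.head {F0 F : Set M} {p : Dat L M} {A C : Set V} {w : Wd}
    (h : Sg1 k G1 lam1 r F0 F p A w C) : dat G1 lam1 r A = p ∧
      ∃ w', w = ((), alpha G1 lam1 r A F) :: w' := by
  cases h with
  | nil _ h => exact ⟨h, _, rfl⟩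
  | cons h _ _ _ => exact ⟨h, _, rfl⟩

theorem SW.dat {F0 F : Set M} {p : Dat L M} {A C : Set V} {w : Wd}
    (h : SW k G1 lam1 r F0 F p A w C) : dat G1 lam1 r A = p := by
  rcases h with h | ⟨B, w', h, -⟩
  · exact h.head.1
  · exact h

theorem SW.head_le [Finite V] {F0 F : Set M} {p : Dat L M} {A C : Set V} {a : Unit × ℕ}
    {w : Wd} (h : SW k G1 lam1 r F0 F p A (a :: w) C) : alpha G1 lam1 r A F ≤ a.2 := by
  rcases h with h | ⟨B, w', -, -, -, -, he⟩
  · obtain ⟨w', he⟩ := h.head.2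
    rw [List.cons.injEq] at he
    rw [he.1]
  · rw [List.cons.injEq] at he
    rw [he.1]
    exact alpha_le_mc _ _ _ _ _ _ _ _

theorem SW.single {F0 F : Set M} {p : Dat L M} {A C : Set V} {a : Unit × ℕ}
    (h : SW k G1 lam1 r F0 F p A [a] C) : A = C := by
  rcases h with h | ⟨B, w', -, -, -, h, he⟩
  · cases h with
    | nil _ _ => rfl
  · rw [List.cons.injEq] at he
    obtain ⟨w'', hw⟩ := h.head.2
    rw [hw] at he
    exact absurd he.2 (by simp)

variable [Finite X]

theorem disj_left (h : Glued G G1 G2 i j (fun v w => r (lam1 v) (lam2 w))) {A B : Set V}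
    {C : Set W} (hd : Disjoint A B) : Disjoint (i '' A ∪ j '' C) (i '' B) := by
  rw [Set.disjoint_left]
  rintro _ (⟨v, hv, rfl⟩ | ⟨w, hw, rfl⟩) ⟨u, hu, he⟩
  · rw [h.inj1 he] at hu
    exact Set.disjoint_left.mp hd hv hu
  · exact h.disj u w he

theorem disj_both (h : Glued G G1 G2 i j (fun v w => r (lam1 v) (lam2 w))) {A B : Set V}
    {C D : Set W} (hd : Disjoint A B) (hd' : Disjoint C D) :
    Disjoint (i '' A ∪ j '' C) (i '' B ∪ j '' D) := by
  rw [Set.disjoint_left]
  rintro _ (⟨v, hv, rfl⟩ | ⟨w, hw, rfl⟩) (⟨u, hu, he⟩ | ⟨u, hu, he⟩)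
  · rw [h.inj1 he] at hu
    exact Set.disjoint_left.mp hd hv hu
  · exact h.disj v u he.symm
  · exact h.disj u w he
  · rw [h.inj2 he] at hu
    exact Set.disjoint_left.mp hd' hw hu

/-- One step of the first side. -/
theorem nt_step (h : Glued G G1 G2 i j (fun v w => r (lam1 v) (lam2 w)))
    {A1 B : Set V} {A2 : Set W} (hN : NT G k (i '' A1 ∪ j '' A2)) (hd : Disjoint A1 B)
    (hB : PT k G1 lam1 r (lam2 '' Set.univ) B)
    (hdat : dat G1 lam1 r (A1 ∪ B) = dat G1 lam1 r A1)
    (hk : mc G1 lam1 r (lam2 '' A2ᶜ) (lam2 '' Set.univ) (lam2 '' A2ᶜ) A1 B +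
      alpha G2 lam2 (fun m l => r l m) A2 (lam1 '' A1ᶜ) ≤
      k + ov r (dat G1 lam1 r A1) (dat G2 lam2 (fun m l => r l m) A2)) :
    NT G k (i '' (A1 ∪ B) ∪ j '' A2) := by
  have e : i '' (A1 ∪ B) ∪ j '' A2 = (i '' A1 ∪ j '' A2) ∪ i '' B := by
    rw [Set.image_union, Set.union_assoc, Set.union_assoc, Set.union_comm (i '' B)]
  rw [e]
  exact NT.union _ _ (disj_left h hd) hN (nt_pure h hB) (nok_left h hB.nonempty hdat hk)

/-- From a walk in two chains to a tree. -/
theorem nt_chain (h : Glued G G1 G2 i j (fun v w => r (lam1 v) (lam2 w)))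
    {p : Dat L M} {q : Dat M L} {x y : Wd}
    (hw : NW (fun a b : Unit × ℕ => a.2 + b.2 ≤ k + ov r p q) x y) :
    ∀ {A1 C1 : Set V} {A2 C2 : Set W},
    SW k G1 lam1 r (lam2 '' Set.univ) q.fut p A1 x C1 →
    SW k G2 lam2 (fun m l => r l m) (lam1 '' Set.univ) p.fut q A2 y C2 →
    NT G k (i '' A1 ∪ j '' A2) → NT G k (i '' C1 ∪ j '' C2) := by
  have hV : Finite V := Finite.of_injective i h.inj1
  have hW : Finite W := Finite.of_injective j h.inj2
  induction hw with
  | @single a b hab =>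
    intro A1 C1 A2 C2 h1 h2 h3
    rw [← h1.single, ← h2.single]
    exact h3
  | @left a b x y hab hw ih =>
    intro A1 C1 A2 C2 h1 h2 h3
    rcases h1 with h1 | ⟨B, w', e1, hd, hB, hS, hx⟩
    · cases h1 with
      | nil _ _ => exact absurd rfl hw.ne1
      | @cons _ B _ w' e1 hd hB hS => exact ih (Or.inr ⟨B, w', e1, hd, hB, hS, rfl⟩) h2 h3
    · rw [List.cons.injEq] at hx
      rw [hx.2] at ih hw
      refine ih (Or.inl hS) h2 (nt_step h h3 hd hB ?_ ?_)
      · rw [hS.head.1, e1]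
      · have e2 := h2.dat
        have h4 := h2.head_le
        rw [hx.1] at hab
        subst e1
        subst e2
        have h5 : (dat G1 lam1 r A1).fut = lam1 '' A1ᶜ := rfl
        have h6 : (dat G2 lam2 (fun m l => r l m) A2).fut = lam2 '' A2ᶜ := rfl
        rw [h5] at h4
        rw [h6] at hab
        simp only at hab
        omega
  | @right a b x y hab hw ih =>
    intro A1 C1 A2 C2 h1 h2 h3
    rcases h2 with h2 | ⟨B, w', e1, hd, hB, hS, hx⟩
    · cases h2 with
      | nil _ _ => exact absurd rfl hw.ne2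
      | @cons _ B _ w' e1 hd hB hS => exact ih h1 (Or.inr ⟨B, w', e1, hd, hB, hS, rfl⟩) h3
    · rw [List.cons.injEq] at hx
      rw [hx.2] at ih hw
      rw [Set.union_comm] at h3
      refine ih h1 (Or.inl hS) ?_
      have h7 := nt_step (r := fun m l => r l m) (lam1 := lam2) (lam2 := lam1) h.swap h3 hd hB
        ?_ ?_
      · rw [Set.union_comm]
        exact h7
      · rw [hS.head.1, e1]
      · have e2 := h1.dat
        have h4 := h1.head_le
        rw [hx.1] at hab
        subst e1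
        subst e2
        have h5 : (dat G1 lam1 r A1).fut = lam1 '' A1ᶜ := rfl
        have h6 : (dat G2 lam2 (fun m l => r l m) A2).fut = lam2 '' A2ᶜ := rfl
        rw [h6] at h4
        rw [h5] at hab
        have h8 := ov_swap r (dat G1 lam1 r A1) (dat G2 lam2 (fun m l => r l m) A2)
        show mc G2 lam2 (fun m l => r l m) (lam1 '' A1ᶜ) (lam1 '' Set.univ) (lam1 '' A1ᶜ) A2 B +
          alpha G1 lam1 r A1 (lam2 '' A2ᶜ) ≤ k + ov (fun m l => r l m)
            (dat G2 lam2 (fun m l => r l m) A2) (dat G1 lam1 r A1)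
        simp only at hab
        omega

/-- From decorated shapes to a tree. -/
theorem nt_of_rl (h : Glued G G1 G2 i j (fun v w => r (lam1 v) (lam2 w)))
    {s : Sh (Bt k L M)} {t : Sh (Bt k M L)} (hst : Sh.Rel (RD k r) s t) :
    ∀ {A1 : Set V} {A2 : Set W}, Rl k G1 lam1 r (lam2 '' Set.univ) s A1 →
    Rl k G2 lam2 (fun m l => r l m) (lam1 '' Set.univ) t A2 →
    NT G k (i '' A1 ∪ j '' A2) := by
  induction hst with
  | leaf hb =>
    intro A1 A2 hs ht
    cases hs with
    | empty =>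
      cases ht with
      | empty => simp [RD] at hb
      | pure hp =>
        rw [Set.image_empty, Set.empty_union]
        exact nt_pure (r := fun m l => r l m) (lam1 := lam2) (lam2 := lam1) h.swap hp
    | pure hp =>
      cases ht with
      | empty =>
        rw [Set.image_empty, Set.union_empty]
        exact nt_pure h hp
      | pure hp' => simp [RD] at hb
  | node hb _ _ ih1 ih2 =>
    intro A1 A2 hs ht
    cases hs with
    | @node A B _ _ _ σ q1 q2 q w hd hsA hsB hPL hch =>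
      cases ht with
      | @node A' B' _ _ _ τ p1 p2 p w' hd' htA htB hPL' hch' =>
        simp only [RD, Prod.swap_prod_mk, Prod.mk.injEq] at hb
        obtain ⟨⟨rfl, rfl⟩, ⟨rfl, rfl⟩, ⟨rfl, rfl⟩, hcm, hw⟩ := hb
        refine nt_chain h hw (Or.inl hch) (Or.inl hch') ?_
        have e := union_glued (i := i) (j := j) A B A' B'
        rw [← e]
        refine NT.union _ _ (disj_both h hd hd') (ih1 hsA htA) (ih2 hsB htB) ?_
        exact (nok_iff_compat h A B A' B').mpr ⟨σ, τ, hPL, hPL', hcm⟩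

end

end Pool.Agent.R545.Nl
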