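import Pool.Agent.R545.Nl.Defs
import Pool.Agent.R545.Mw.Bounds

/-!
# NLC-width at most `k` in terms of trees
-/

namespace Pool.Agent.R545.Nl

open Classical Pool.Agent.R545.Lc Pool.Agent.R545.Mw

/-! ### Basic facts -/

theorem NT.finite {X : Type} {G : SimpleGraph X} {k : ℕ} {A : Set X} (h : NT G k A) :
    A.Finite := by
  induction h with
  | single v _ => exact Set.finite_singleton v
  | union A B _ _ _ _ ih1 ih2 => exact ih1.union ih2

theorem NT.nonempty {X : Type} {G : SimpleGraph X} {k : ℕ} {A : Set X} (h : NT G k A) :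
    A.Nonempty := by
  induction h with
  | single v _ => exact Set.singleton_nonempty v
  | union A B _ _ _ _ ih1 _ => exact ih1.mono Set.subset_union_left

theorem NT.pos {X : Type} {G : SimpleGraph X} {k : ℕ} {A : Set X} (h : NT G k A) : 1 ≤ k := by
  induction h with
  | single v h => exact h
  | union A B _ _ _ _ ih1 _ => exact ih1

theorem NOk.mono {X : Type} {G : SimpleGraph X} {k k' : ℕ} {A B : Set X} (h : k ≤ k')
    (hO : NOk G k A B) : NOk G k' A B := by
  obtain ⟨f, g, h1, h2, h3⟩ := hO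
  have hi := Fin.castLE_injective h
  refine ⟨fun x => Fin.castLE h (f x), fun x => Fin.castLE h (g x), ?_, ?_, ?_⟩
  · intro u hu v hv e
    exact h1 u hu v hv (hi e)
  · intro u hu v hv e
    exact h2 u hu v hv (hi e)
  · intro u hu v hv e
    exact h3 u hu v hv (hi e)

theorem NT.mono {X : Type} {G : SimpleGraph X} {k k' : ℕ} {A : Set X} (h : k ≤ k')
    (hT : NT G k A) : NT G k' A := by
  induction hT with
  | single v hk => exact NT.single v (hk.trans h)
  | union A B hd _ _ hO ih1 ih2 => exact NT.union A B hd ih1 ih2 (hO.mono h)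

/-! ### Isomorphism invariance -/

theorem nb_iso {X Y : Type} {G : SimpleGraph X} {H : SimpleGraph Y} (e : G ≃g H) (A : Set X)
    (u : X) : nb H (e '' A) (e u) = e '' nb G A u := by
  ext y
  obtain ⟨x, rfl⟩ := e.surjective y
  simp only [nb, Set.mem_ofPred_eq, Set.mem_image, e.injective.eq_iff, exists_eq_right,
    e.map_adj_iff]

theorem NOk.iso {X Y : Type} {G : SimpleGraph X} {H : SimpleGraph Y} (e : G ≃g H) {k : ℕ}
    {A B : Set X} (hO : NOk G k A B) : NOk H k (e '' A) (e '' B) := by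
  obtain ⟨f, g, h1, h2, h3⟩ := hO
  refine ⟨fun y => f (e.symm y), fun y => g (e.symm y), ?_, ?_, ?_⟩
  · rintro _ ⟨u, hu, rfl⟩ _ ⟨v, hv, rfl⟩ h
    simp only [RelIso.symm_apply_apply] at h
    rw [nb_iso, nb_iso, h1 u hu v hv h]
  · rintro _ ⟨u, hu, rfl⟩ _ ⟨v, hv, rfl⟩ h
    simp only [RelIso.symm_apply_apply] at h
    rw [nb_iso, nb_iso, h2 u hu v hv h]
  · rintro _ ⟨u, hu, rfl⟩ _ ⟨v, hv, rfl⟩ h
    simp only [RelIso.symm_apply_apply] at h
    rw [← Set.image_union, nb_iso, nb_iso, h3 u hu v hv h]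

theorem NT.iso {X Y : Type} {G : SimpleGraph X} {H : SimpleGraph Y} (e : G ≃g H) {k : ℕ}
    {A : Set X} (h : NT G k A) : NT H k (e '' A) := by
  induction h with
  | single v hk =>
    rw [Set.image_singleton]
    exact NT.single _ hk
  | union A B hd _ _ hO ih1 ih2 =>
    rw [Set.image_union]
    exact NT.union _ _ ((Set.disjoint_image_iff e.injective).2 hd) ih1 ih2 (hO.iso e)

theorem ntLE_isoInv (k : ℕ) : IsoInv (fun _ G => NtLE G k) := by
  rintro V V' G G' ⟨e⟩ (h | h)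
  · exact Or.inl ⟨fun x => h.false (e.symm x)⟩
  · refine Or.inr ?_
    have h1 := h.iso e
    rwa [Set.image_univ, e.surjective.range_eq] at h1

/-! ### From constructions to trees -/

theorem nlcBuilt_pos {k : ℕ} {V : Type} {G' : SimpleGraph V} {l : V → Fin k}
    (h : NlcBuilt k V G' l) : 1 ≤ k := by
  induction h with
  | single i => exact i.pos
  | relabel V G l R hG ih => exact ih
  | comp V W G H l m S hG hH ihG ihH => exact ihG

theorem nb_eq_of {X : Type} {G : SimpleGraph X} {A : Set X} {u v : X}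
    (h : ∀ x, x ∉ A → (G.Adj u x ↔ G.Adj v x)) : nb G A u = nb G A v := by
  ext x
  simp only [nb, Set.mem_ofPred_eq]
  constructor
  · rintro ⟨h1, h2⟩
    exact ⟨(h x h2).1 h1, h2⟩
  · rintro ⟨h1, h2⟩
    exact ⟨(h x h2).2 h1, h2⟩

theorem nt_of_nlcBuilt {k : ℕ} {V : Type} {G' : SimpleGraph V} {l : V → Fin k}
    (h : NlcBuilt k V G' l) : ∀ {X : Type} (Gf : SimpleGraph X) (e : V → X),
      Function.Injective e →
      (∀ u v, G'.Adj u v ↔ Gf.Adj (e u) (e v)) →
      (∀ u v, l u = l v → ∀ x, x ∉ Set.range e → (Gf.Adj (e u) x ↔ Gf.Adj (e v) x)) →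
      NT Gf k (Set.range e) := by
  induction h with
  | single i =>
    intro X Gf e he ha hc
    rw [range_unit]
    exact NT.single (e ()) i.pos
  | relabel V G l R hG ih =>
    intro X Gf e he ha hc
    exact ih Gf e he ha (fun u v huv x hx => hc u v (by simp only [huv]) x hx)
  | comp V W G H l m S hG hH ihG ihH =>
    intro X Gf e he ha hc
    have hS : ∀ u y, Gf.Adj (e (Sum.inl u)) (e (Sum.inr y)) ↔ S (l u) (m y) := fun u y =>
      (ha (Sum.inl u) (Sum.inr y)).symm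
    have hl : ∀ u v : V, l u = l v → ∀ x, x ∉ Set.range (fun w => e (Sum.inl w)) →
        (Gf.Adj (e (Sum.inl u)) x ↔ Gf.Adj (e (Sum.inl v)) x) := by
      intro u v huv x hx
      by_cases hx' : x ∈ Set.range e
      · obtain ⟨y | y, rfl⟩ := hx'
        · exact absurd ⟨y, rfl⟩ hx
        · rw [hS, hS, huv]
      · exact hc (Sum.inl u) (Sum.inl v) huv x hx'
    have hm : ∀ u v : W, m u = m v → ∀ x, x ∉ Set.range (fun w => e (Sum.inr w)) →
        (Gf.Adj (e (Sum.inr u)) x ↔ Gf.Adj (e (Sum.inr v)) x) := by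
      intro u v huv x hx
      by_cases hx' : x ∈ Set.range e
      · obtain ⟨y | y, rfl⟩ := hx'
        · rw [Gf.adj_comm, hS, Gf.adj_comm, hS, huv]
        · exact absurd ⟨y, rfl⟩ hx
      · exact hc (Sum.inr u) (Sum.inr v) huv x hx'
    have h2 := ihG Gf (fun w => e (Sum.inl w)) (fun a b hab => Sum.inl_injective (he hab))
        (fun u v => ha (Sum.inl u) (Sum.inl v)) hl
    have h3 := ihH Gf (fun w => e (Sum.inr w)) (fun a b hab => Sum.inr_injective (he hab))
        (fun u v => ha (Sum.inr u) (Sum.inr v)) hm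
    let f : X → Fin k := Function.extend e (Sum.elim l m) (fun _ => ⟨0, nlcBuilt_pos hG⟩)
    have hf : ∀ y, f (e y) = Sum.elim l m y := fun y => he.extend_apply _ _ y
    have hO : NOk Gf k (Set.range (fun w => e (Sum.inl w)))
        (Set.range (fun w => e (Sum.inr w))) := by
      refine ⟨f, f, ?_, ?_, ?_⟩
      · rintro _ ⟨u, rfl⟩ _ ⟨v, rfl⟩ h
        simp only [hf, Sum.elim_inl] at h
        exact nb_eq_of (hl u v h)
      · rintro _ ⟨u, rfl⟩ _ ⟨v, rfl⟩ h
        simp only [hf, Sum.elim_inr] at h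
        exact nb_eq_of (hm u v h)
      · rintro _ ⟨u, rfl⟩ _ ⟨v, rfl⟩ h
        simp only [hf] at h
        rw [← range_sum]
        exact nb_eq_of (hc (Sum.inl u) (Sum.inr v) h)
    rw [range_sum]
    exact NT.union _ _ (disjoint_sum e he) h2 h3 hO

/-! ### From trees to constructions -/

theorem step_nt {X : Type} {k : ℕ} {G : SimpleGraph X} {A B : Set X} (hd : Disjoint A B)
    (hAn : A.Nonempty) (hBn : B.Nonempty)
    (h1 : ∃ l, NBS k A G l ∧ ∀ u ∈ A, ∀ w ∈ A, (l u = l w ↔ nb G A u = nb G A w))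
    (h2 : ∃ l, NBS k B G l ∧ ∀ u ∈ B, ∀ w ∈ B, (l u = l w ↔ nb G B u = nb G B w))
    (hO : NOk G k A B) :
    ∃ l, NBS k (A ∪ B) G l ∧
      ∀ u ∈ A ∪ B, ∀ w ∈ A ∪ B, (l u = l w ↔ nb G (A ∪ B) u = nb G (A ∪ B) w) := by
  obtain ⟨l1, hb1, hl1⟩ := h1
  obtain ⟨l2, hb2, hl2⟩ := h2
  obtain ⟨f, g, hf, hg, hfg⟩ := hO
  -- representatives
  have hrep : ∀ (D : Set X), D.Nonempty → ∃ r : Set X → X, (∀ S, r S ∈ D) ∧
      ∀ u ∈ D, nb G D (r (nb G D u)) = nb G D u := by
    intro D hD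
    have : ∀ S : Set X, ∃ r : X, r ∈ D ∧ ((∃ u ∈ D, nb G D u = S) → nb G D r = S) := by
      intro S
      by_cases hS : ∃ u ∈ D, nb G D u = S
      · obtain ⟨u, hu, e⟩ := hS
        exact ⟨u, hu, fun _ => e⟩
      · exact ⟨hD.some, hD.some_mem, fun h => absurd h hS⟩
    choose r hr1 hr2 using this
    exact ⟨r, hr1, fun u hu => hr2 _ ⟨u, hu, rfl⟩⟩
  obtain ⟨rA, hrA, hrA'⟩ := hrep A hAn
  obtain ⟨rB, hrB, hrB'⟩ := hrep B hBn
  obtain ⟨rC, hrC, hrC'⟩ := hrep (A ∪ B) (hAn.mono Set.subset_union_left)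
  have hk : 0 < k := (l1 hAn.some).pos
  -- relabelling a coarsest labelling
  have hre : ∀ (D : Set X) (l : X → Fin k) (F : Set X → Fin k),
      (∀ u ∈ D, ∀ w ∈ D, l u = l w → nb G D u = nb G D w) → NBS k D G l →
      NBS k D G (fun u => F (nb G D u)) := by
    intro D l F hl hb
    let R : Fin k → Fin k := fun a =>
      if h : ∃ u ∈ D, l u = a then F (nb G D h.choose) else ⟨0, hk⟩
    have hR : ∀ u ∈ D, R (l u) = F (nb G D u) := by
      intro u hu
      have hex : ∃ w ∈ D, l w = l u := ⟨u, hu, rfl⟩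
      have e : R (l u) = F (nb G D hex.choose) := by
        simp only [R, dif_pos hex]
      rw [e, hl _ hex.choose_spec.1 _ hu hex.choose_spec.2]
    exact (hb.comp R).congr (fun _ _ _ _ => Iff.rfl) hR
  have c1 := hre A l1 (fun S => f (rA S)) (fun u hu w hw h => (hl1 u hu w hw).1 h) hb1
  have c2 := hre B l2 (fun S => g (rB S)) (fun u hu w hw h => (hl2 u hu w hw).1 h) hb2
  have p1 : ∀ u ∈ A, ∀ w ∈ A, f (rA (nb G A u)) = f (rA (nb G A w)) → nb G A u = nb G A w := by
    intro u hu w hw h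
    have := hf _ (hrA _) _ (hrA _) h
    rwa [hrA' u hu, hrA' w hw] at this
  have p2 : ∀ u ∈ B, ∀ w ∈ B, g (rB (nb G B u)) = g (rB (nb G B w)) → nb G B u = nb G B w := by
    intro u hu w hw h
    have := hg _ (hrB _) _ (hrB _) h
    rwa [hrB' u hu, hrB' w hw] at this
  have p3 : ∀ u ∈ A, ∀ w ∈ B, f (rA (nb G A u)) = g (rB (nb G B w)) →
      nb G (A ∪ B) u = nb G (A ∪ B) w := by
    intro u hu w hw h
    have := hfg _ (hrA _) _ (hrB _) h
    rwa [nb_union_of_left G (hrA' u hu), nb_union_of_right G (hrB' w hw)] at this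
  let l3 : X → Fin k := fun v => if v ∈ A then f (rA (nb G A v)) else g (rB (nb G B v))
  have h3A : ∀ u ∈ A, l3 u = f (rA (nb G A u)) := fun u hu => if_pos hu
  have h3B : ∀ u ∈ B, l3 u = g (rB (nb G B u)) := fun u hu =>
    if_neg (fun h => Set.disjoint_left.1 hd h hu)
  have d1 : NBS k A G l3 := c1.congr (fun u hu w hw => Iff.rfl) (fun u hu => (h3A u hu).symm)
  have d2 : NBS k B G l3 := c2.congr (fun u hu w hw => Iff.rfl) (fun u hu => (h3B u hu).symm)
  have hsame : ∀ u ∈ A ∪ B, ∀ w ∈ A ∪ B, l3 u = l3 w → nb G (A ∪ B) u = nb G (A ∪ B) w := by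
    rintro u (hu | hu) w (hw | hw) e
    · rw [h3A u hu, h3A w hw] at e
      exact nb_union_of_left G (p1 u hu w hw e)
    · rw [h3A u hu, h3B w hw] at e
      exact p3 u hu w hw e
    · rw [h3B u hu, h3A w hw] at e
      exact (p3 w hw u hu e.symm).symm
    · rw [h3B u hu, h3B w hw] at e
      exact nb_union_of_right G (p2 u hu w hw e)
  have d3 : NBS k (A ∪ B) G l3 := d1.union d2 hd
    (fun a b => ∃ u ∈ A, ∃ w ∈ B, l3 u = a ∧ l3 w = b ∧ G.Adj u w) (by
      intro u hu w hw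
      constructor
      · intro h
        exact ⟨u, hu, w, hw, rfl, rfl, h⟩
      · rintro ⟨u', hu', w', hw', e1, e2, h⟩
        rw [h3A u hu, h3A u' hu'] at e1
        rw [h3B w hw, h3B w' hw'] at e2
        have a1 : w' ∈ nb G A u' := ⟨h, fun hwA => Set.disjoint_left.1 hd hwA hw'⟩
        rw [p1 u' hu' u hu e1] at a1
        have a2 : u ∈ nb G B w' := ⟨a1.1.symm, fun huB => Set.disjoint_left.1 hd hu huB⟩
        rw [p2 w' hw' w hw e2] at a2
        exact a2.1.symm)
  refine ⟨fun u => l3 (rC (nb G (A ∪ B) u)), hre (A ∪ B) l3 (fun S => l3 (rC S)) hsame d3, ?_⟩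
  intro u hu w hw
  constructor
  · intro h
    have := hsame _ (hrC _) _ (hrC _) h
    rwa [hrC' u hu, hrC' w hw] at this
  · intro h
    simp only [h]

theorem nbs_of_nt {X : Type} {k : ℕ} {G : SimpleGraph X} {A : Set X} (h : NT G k A) :
    ∃ l, NBS k A G l ∧ ∀ u ∈ A, ∀ w ∈ A, (l u = l w ↔ nb G A u = nb G A w) := by
  induction h with
  | single v hk =>
    refine ⟨_, NBS.single v G (fun _ => (⟨0, hk⟩ : Fin k)), ?_⟩
    rintro u hu w hw
    rw [Set.mem_singleton_iff.1 hu, Set.mem_singleton_iff.1 hw]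
    exact ⟨fun _ => rfl, fun _ => rfl⟩
  | union A B hd hA hB hO ih1 ih2 => exact step_nt hd hA.nonempty hB.nonempty ih1 ih2 hO

/-- NLC-width at most `k`, in terms of trees. -/
theorem nlcLE_iff_nt {V : Type} [Finite V] [Nonempty V] {G : SimpleGraph V} {k : ℕ} :
    NlcLE G k ↔ NT G k Set.univ := by
  constructor
  · rintro ⟨W, G', l, hb, ⟨e⟩⟩
    have hL := nt_of_nlcBuilt hb G (fun w => e.symm w) e.symm.injective
      (fun u v => e.symm.map_adj_iff.symm)
      (fun u v _ x hx => absurd ⟨e x, e.symm_apply_apply x⟩ hx)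
    rwa [range_iso] at hL
  · intro h
    obtain ⟨l, ⟨W, G', l', e, hb, he, hr, ha, _⟩, _⟩ := nbs_of_nt h
    have hsurj : Function.Surjective e := Set.range_eq_univ.1 hr
    refine ⟨W, G', l', hb, ⟨?_⟩⟩
    exact (RelIso.mk (Equiv.ofBijective e ⟨he, hsurj⟩) (fun {x y} => (ha x y).symm) :
      G' ≃g G).symm

end Pool.Agent.R545.Nl
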