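import Pool.Agent.R545.Nl.Defs

/-!
# The cost of a composition in a glued graph
-/

namespace Pool.Agent.R545.Nl

open Classical Pool.Agent.R545.Lc Pool.Agent.R545.Mw

section General

variable {X : Type}

theorem nb_union_eq {G : SimpleGraph X} {A B : Set X} {u v : X} (h : nb G A u = nb G A v) :
    nb G (A ∪ B) u = nb G (A ∪ B) v := by
  ext x
  have h1 := Set.ext_iff.mp h x
  simp only [nb, Set.mem_ofPred_eq, Set.mem_union, not_or] at h1 ⊢
  tauto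

theorem nb_union_eq' {G : SimpleGraph X} {A B : Set X} {u v : X} (h : nb G B u = nb G B v) :
    nb G (A ∪ B) u = nb G (A ∪ B) v := by
  rw [Set.union_comm]
  exact nb_union_eq h

/-- A function which factors through a colouring takes at most as many values as there are
colours. -/
theorem ncard_factor {α β γ : Type} {S : Set α} {f : α → β} {c : α → γ}
    (hfin : (c '' S).Finite) (h : ∀ x ∈ S, ∀ y ∈ S, c x = c y → f x = f y) :
    (f '' S).ncard ≤ (c '' S).ncard := by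
  rcases S.eq_empty_or_nonempty with rfl | ⟨x0, hx0⟩
  · simp
  · have hspec : ∀ y, ∀ hy : (∃ x ∈ S, f x = y), hy.choose ∈ S ∧ f hy.choose = y :=
      fun y hy => hy.choose_spec
    refine Set.ncard_le_ncard_of_injOn
      (fun y => if hy : ∃ x ∈ S, f x = y then c hy.choose else c x0) ?_ ?_ hfin
    · rintro _ ⟨x, hx, rfl⟩
      have hy : ∃ x' ∈ S, f x' = f x := ⟨x, hx, rfl⟩
      simp only [hy, dite_true]
      exact ⟨_, (hspec _ hy).1, rfl⟩
    · rintro _ ⟨x, hx, rfl⟩ _ ⟨y, hy, rfl⟩ he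
      have h1 : ∃ x' ∈ S, f x' = f x := ⟨x, hx, rfl⟩
      have h2 : ∃ x' ∈ S, f x' = f y := ⟨y, hy, rfl⟩
      simp only [h1, h2, dite_true] at he
      rw [← (hspec _ h1).2, ← (hspec _ h2).2]
      exact h _ (hspec _ h1).1 _ (hspec _ h2).1 he

/-- Labels from a set of at most `k` labels. -/
theorem nok_of_labels {κ : Type} [Finite X] {G : SimpleGraph X} {k : ℕ} {A B : Set X}
    (hne : (A ∪ B).Nonempty) (f g : X → κ)
    (h1 : ∀ u ∈ A, ∀ v ∈ A, f u = f v → nb G A u = nb G A v)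
    (h2 : ∀ u ∈ B, ∀ v ∈ B, g u = g v → nb G B u = nb G B v)
    (h3 : ∀ u ∈ A, ∀ v ∈ B, f u = g v → nb G (A ∪ B) u = nb G (A ∪ B) v)
    (hc : (f '' A ∪ g '' B).ncard ≤ k) : NOk G k A B := by
  have hfin : (f '' A ∪ g '' B).Finite := Set.toFinite _
  set S : Set κ := f '' A ∪ g '' B with hS
  have hf : ∀ u ∈ A, f u ∈ S := fun u hu => Or.inl ⟨u, hu, rfl⟩
  have hg : ∀ u ∈ B, g u ∈ S := fun u hu => Or.inr ⟨u, hu, rfl⟩
  have hSne : S.Nonempty := by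
    obtain ⟨x, hx | hx⟩ := hne
    · exact ⟨_, hf x hx⟩
    · exact ⟨_, hg x hx⟩
  have hk : 0 < k := lt_of_lt_of_le ((Set.ncard_pos hfin).mpr hSne) hc
  have hFS : Finite S := hfin
  obtain ⟨e, he⟩ : ∃ e : κ → Fin k, ∀ x ∈ S, ∀ y ∈ S, e x = e y → x = y := by
    have e0 : S ≃ Fin (Nat.card S) := Finite.equivFin S
    have hle : Nat.card S ≤ k := hc
    refine ⟨fun x => if hx : x ∈ S then Fin.castLE hle (e0 ⟨x, hx⟩) else ⟨0, hk⟩, ?_⟩
    intro x hx y hy hxy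
    simp only [hx, hy, dite_true] at hxy
    have := e0.injective (Fin.castLE_injective hle hxy)
    exact congrArg Subtype.val this
  exact ⟨fun x => e (f x), fun x => e (g x),
    fun u hu v hv huv => h1 u hu v hv (he _ (hf u hu) _ (hf v hv) huv),
    fun u hu v hv huv => h2 u hu v hv (he _ (hg u hu) _ (hg v hv) huv),
    fun u hu v hv huv => h3 u hu v hv (he _ (hf u hu) _ (hg v hv) huv)⟩

theorem nok_cnt [Finite X] {G : SimpleGraph X} {k : ℕ} {A B : Set X} (h : NOk G k A B) :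
    cnt G (A ∪ B) ≤ k := by
  obtain ⟨f, g, h1, h2, h3⟩ := h
  unfold cnt
  refine (ncard_factor (c := fun x => if x ∈ A then f x else g x) (Set.toFinite _) ?_).trans ?_
  · intro x hx y hy he
    by_cases hxA : x ∈ A
    · by_cases hyA : y ∈ A
      · rw [if_pos hxA, if_pos hyA] at he
        exact nb_union_eq (h1 x hxA y hyA he)
      · rw [if_pos hxA, if_neg hyA] at he
        exact h3 x hxA y (hy.resolve_left hyA) he
    · by_cases hyA : y ∈ A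
      · rw [if_neg hxA, if_pos hyA] at he
        exact (h3 y hyA x (hx.resolve_left hxA) he.symm).symm
      · rw [if_neg hxA, if_neg hyA] at he
        exact nb_union_eq' (h2 x (hx.resolve_left hxA) y (hy.resolve_left hyA) he)
  · refine (Set.ncard_le_ncard (Set.subset_univ _) Set.finite_univ).trans ?_
    rw [Set.ncard_univ, Nat.card_eq_fintype_card, Fintype.card_fin]

theorem NOk.symm {G : SimpleGraph X} {k : ℕ} {A B : Set X} (h : NOk G k A B) : NOk G k B A := by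
  obtain ⟨f, g, h1, h2, h3⟩ := h
  refine ⟨g, f, h2, h1, fun u hu v hv huv => ?_⟩
  rw [Set.union_comm]
  exact (h3 v hv u hu huv.symm).symm

end General

section

variable {V W X L M : Type} {G : SimpleGraph X} {G1 : SimpleGraph V} {G2 : SimpleGraph W}
  {i : V → X} {j : W → X} {lam1 : V → L} {lam2 : W → M} {r : L → M → Prop} {k : ℕ}

/-- Functions on a glued graph. -/
theorem glue_fun (h : Glued G G1 G2 i j (fun v w => r (lam1 v) (lam2 w))) {κ : Type}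
    (f1 : V → κ) (f2 : W → κ) : ∃ f : X → κ, (∀ v, f (i v) = f1 v) ∧ ∀ w, f (j w) = f2 w := by
  refine ⟨fun x => if hx : ∃ v, i v = x then f1 hx.choose else
    f2 ((h.cover x).resolve_left hx).choose, ?_, ?_⟩
  · intro v
    have hx : ∃ v', i v' = i v := ⟨v, rfl⟩
    simp only [hx, dite_true]
    rw [h.inj1 hx.choose_spec]
  · intro w
    have hx : ¬ ∃ v', i v' = j w := fun ⟨v, hv⟩ => h.disj v w hv
    simp only [hx, dite_false]
    rw [h.inj2 ((h.cover (j w)).resolve_left hx).choose_spec]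

theorem union_glued (A1 B1 : Set V) (A2 B2 : Set W) :
    (i '' A1 ∪ j '' A2) ∪ (i '' B1 ∪ j '' B2) = i '' (A1 ∪ B1) ∪ j '' (A2 ∪ B2) := by
  rw [Set.image_union, Set.image_union]
  ext x
  simp only [Set.mem_union]
  tauto

/-- The conditions on vertices of different sides. -/
def Cross {κ : Type} (G1 : SimpleGraph V) (G2 : SimpleGraph W) (lam1 : V → L) (lam2 : W → M)
    (r : L → M → Prop) (A1 B1 : Set V) (A2 B2 : Set W) (f1 g1 : V → κ) (f2 g2 : W → κ) : Prop :=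
  (∀ u ∈ A1, ∀ w ∈ A2, f1 u = f2 w → Mat G1 lam1 r A1 u (lam2 w) ∧
    Mat G2 lam2 (fun m l => r l m) A2 w (lam1 u)) ∧
  (∀ u ∈ B1, ∀ w ∈ B2, g1 u = g2 w → Mat G1 lam1 r B1 u (lam2 w) ∧
    Mat G2 lam2 (fun m l => r l m) B2 w (lam1 u)) ∧
  (∀ u ∈ A1, ∀ w ∈ B2, f1 u = g2 w → Mat G1 lam1 r (A1 ∪ B1) u (lam2 w) ∧
    Mat G2 lam2 (fun m l => r l m) (A2 ∪ B2) w (lam1 u)) ∧
  (∀ u ∈ B1, ∀ w ∈ A2, g1 u = f2 w → Mat G1 lam1 r (A1 ∪ B1) u (lam2 w) ∧
    Mat G2 lam2 (fun m l => r l m) (A2 ∪ B2) w (lam1 u))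

theorem compat_iff {A1 B1 : Set V} {A2 B2 : Set W} {f1 g1 : V → Fin k} {f2 g2 : W → Fin k} :
    Compat (sgOf G1 lam1 r A1 B1 f1 g1) (sgOf G2 lam2 (fun m l => r l m) A2 B2 f2 g2) ↔
      Cross G1 G2 lam1 lam2 r A1 B1 A2 B2 f1 g1 f2 g2 := by
  constructor
  · rintro ⟨c1, c2, c3, c4, c5, c6, c7, c8⟩
    refine ⟨?_, ?_, ?_, ?_⟩
    · intro u hu w hw he
      have a1 := c1 (show (f2 w, lam2 w) ∈ _ from ⟨w, hw, rfl, rfl⟩) u hu he
      have a2 := c2 (show (f1 u, lam1 u) ∈ _ from ⟨u, hu, rfl, rfl⟩) w hw he.symm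
      exact ⟨a1, a2⟩
    · intro u hu w hw he
      have a1 := c3 (show (g2 w, lam2 w) ∈ _ from ⟨w, hw, rfl, rfl⟩) u hu he
      have a2 := c4 (show (g1 u, lam1 u) ∈ _ from ⟨u, hu, rfl, rfl⟩) w hw he.symm
      exact ⟨a1, a2⟩
    · intro u hu w hw he
      have a1 := c5 (show (g2 w, lam2 w) ∈ _ from ⟨w, hw, rfl, rfl⟩) u hu he
      have a2 := c6 (show (f1 u, lam1 u) ∈ _ from ⟨u, hu, rfl, rfl⟩) w hw he.symm
      exact ⟨a1, a2⟩
    · intro u hu w hw he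
      have a1 := c7 (show (f2 w, lam2 w) ∈ _ from ⟨w, hw, rfl, rfl⟩) u hu he
      have a2 := c8 (show (g1 u, lam1 u) ∈ _ from ⟨u, hu, rfl, rfl⟩) w hw he.symm
      exact ⟨a1, a2⟩
  · rintro ⟨c1, c2, c3, c4⟩
    refine ⟨?_, ?_, ?_, ?_, ?_, ?_, ?_, ?_⟩
    · rintro ⟨c, m⟩ ⟨w, hw, h1, h2⟩ u hu h3
      simp only at h1 h2 h3
      rw [← h2]
      exact (c1 u hu w hw (h3.trans h1.symm)).1
    · rintro ⟨c, m⟩ ⟨w, hw, h1, h2⟩ u hu h3
      simp only at h1 h2 h3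
      rw [← h2]
      exact (c1 w hw u hu (h1.trans h3.symm)).2
    · rintro ⟨c, m⟩ ⟨w, hw, h1, h2⟩ u hu h3
      simp only at h1 h2 h3
      rw [← h2]
      exact (c2 u hu w hw (h3.trans h1.symm)).1
    · rintro ⟨c, m⟩ ⟨w, hw, h1, h2⟩ u hu h3
      simp only at h1 h2 h3
      rw [← h2]
      exact (c2 w hw u hu (h1.trans h3.symm)).2
    · rintro ⟨c, m⟩ ⟨w, hw, h1, h2⟩ u hu h3
      simp only at h1 h2 h3
      rw [← h2]
      exact (c3 u hu w hw (h3.trans h1.symm)).1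
    · rintro ⟨c, m⟩ ⟨w, hw, h1, h2⟩ u hu h3
      simp only at h1 h2 h3
      rw [← h2]
      exact (c3 w hw u hu (h1.trans h3.symm)).2
    · rintro ⟨c, m⟩ ⟨w, hw, h1, h2⟩ u hu h3
      simp only at h1 h2 h3
      rw [← h2]
      exact (c4 u hu w hw (h3.trans h1.symm)).1
    · rintro ⟨c, m⟩ ⟨w, hw, h1, h2⟩ u hu h3
      simp only at h1 h2 h3
      rw [← h2]
      exact (c4 w hw u hu (h1.trans h3.symm)).2

theorem nb22 (h : Glued G G1 G2 i j (fun v w => r (lam1 v) (lam2 w))) (A1 : Set V) (A2 : Set W)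
    (w w' : W) :
    nb G (i '' A1 ∪ j '' A2) (j w) = nb G (i '' A1 ∪ j '' A2) (j w') ↔
      row G2 lam2 (fun m l => r l m) A2 (lam1 '' A1ᶜ) w =
        row G2 lam2 (fun m l => r l m) A2 (lam1 '' A1ᶜ) w' := by
  have := glued_nb11 (r := fun m l => r l m) (lam1 := lam2) (lam2 := lam1) h.swap A2 A1 w w'
  rw [Set.union_comm] at this
  exact this

/-- The conditions of a composition, expressed with the two sides. -/
theorem nok_iff_cross (h : Glued G G1 G2 i j (fun v w => r (lam1 v) (lam2 w)))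
    (A1 B1 : Set V) (A2 B2 : Set W) :
    NOk G k (i '' A1 ∪ j '' A2) (i '' B1 ∪ j '' B2) ↔
      ∃ (f1 g1 : V → Fin k) (f2 g2 : W → Fin k),
        LV G1 lam1 r (lam2 '' A2ᶜ) (lam2 '' B2ᶜ) (lam2 '' (A2 ∪ B2)ᶜ) A1 B1 f1 g1 ∧
        LV G2 lam2 (fun m l => r l m) (lam1 '' A1ᶜ) (lam1 '' B1ᶜ) (lam1 '' (A1 ∪ B1)ᶜ)
          A2 B2 f2 g2 ∧
        Cross G1 G2 lam1 lam2 r A1 B1 A2 B2 f1 g1 f2 g2 := by
  constructor
  · rintro ⟨f, g, h1, h2, h3⟩
    rw [union_glued] at h3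
    refine ⟨fun v => f (i v), fun v => g (i v), fun w => f (j w), fun w => g (j w),
      ⟨?_, ?_, ?_⟩, ⟨?_, ?_, ?_⟩, ?_, ?_, ?_, ?_⟩
    · intro u hu v hv he
      exact (glued_nb11 h A1 A2 u v).mp (h1 _ (Or.inl ⟨u, hu, rfl⟩) _ (Or.inl ⟨v, hv, rfl⟩) he)
    · intro u hu v hv he
      exact (glued_nb11 h B1 B2 u v).mp (h2 _ (Or.inl ⟨u, hu, rfl⟩) _ (Or.inl ⟨v, hv, rfl⟩) he)
    · intro u hu v hv he
      exact (glued_nb11 h _ _ u v).mp (h3 _ (Or.inl ⟨u, hu, rfl⟩) _ (Or.inl ⟨v, hv, rfl⟩) he)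
    · intro u hu v hv he
      exact (nb22 h A1 A2 u v).mp (h1 _ (Or.inr ⟨u, hu, rfl⟩) _ (Or.inr ⟨v, hv, rfl⟩) he)
    · intro u hu v hv he
      exact (nb22 h B1 B2 u v).mp (h2 _ (Or.inr ⟨u, hu, rfl⟩) _ (Or.inr ⟨v, hv, rfl⟩) he)
    · intro u hu v hv he
      exact (nb22 h _ _ u v).mp (h3 _ (Or.inr ⟨u, hu, rfl⟩) _ (Or.inr ⟨v, hv, rfl⟩) he)
    · intro u hu w hw he
      exact (glued_nb12 h A1 A2 u w).mp
        (h1 _ (Or.inl ⟨u, hu, rfl⟩) _ (Or.inr ⟨w, hw, rfl⟩) he).symm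
    · intro u hu w hw he
      exact (glued_nb12 h B1 B2 u w).mp
        (h2 _ (Or.inl ⟨u, hu, rfl⟩) _ (Or.inr ⟨w, hw, rfl⟩) he).symm
    · intro u hu w hw he
      exact (glued_nb12 h _ _ u w).mp
        (h3 _ (Or.inl ⟨u, hu, rfl⟩) _ (Or.inr ⟨w, hw, rfl⟩) he).symm
    · intro u hu w hw he
      exact (glued_nb12 h _ _ u w).mp
        (h3 _ (Or.inr ⟨w, hw, rfl⟩) _ (Or.inl ⟨u, hu, rfl⟩) he.symm)
  · rintro ⟨f1, g1, f2, g2, ⟨a1, a2, a3⟩, ⟨b1, b2, b3⟩, c1, c2, c3, c4⟩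
    obtain ⟨f, hf1, hf2⟩ := glue_fun h f1 f2
    obtain ⟨g, hg1, hg2⟩ := glue_fun h g1 g2
    refine ⟨f, g, ?_, ?_, ?_⟩
    · rintro _ (⟨u, hu, rfl⟩ | ⟨u, hu, rfl⟩) _ (⟨v, hv, rfl⟩ | ⟨v, hv, rfl⟩) he
      · rw [hf1, hf1] at he
        exact (glued_nb11 h A1 A2 u v).mpr (a1 u hu v hv he)
      · rw [hf1, hf2] at he
        exact ((glued_nb12 h A1 A2 u v).mpr (c1 u hu v hv he)).symm
      · rw [hf1, hf2] at he
        exact (glued_nb12 h A1 A2 v u).mpr (c1 v hv u hu he.symm)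
      · rw [hf2, hf2] at he
        exact (nb22 h A1 A2 u v).mpr (b1 u hu v hv he)
    · rintro _ (⟨u, hu, rfl⟩ | ⟨u, hu, rfl⟩) _ (⟨v, hv, rfl⟩ | ⟨v, hv, rfl⟩) he
      · rw [hg1, hg1] at he
        exact (glued_nb11 h B1 B2 u v).mpr (a2 u hu v hv he)
      · rw [hg1, hg2] at he
        exact ((glued_nb12 h B1 B2 u v).mpr (c2 u hu v hv he)).symm
      · rw [hg1, hg2] at he
        exact (glued_nb12 h B1 B2 v u).mpr (c2 v hv u hu he.symm)
      · rw [hg2, hg2] at he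
        exact (nb22 h B1 B2 u v).mpr (b2 u hu v hv he)
    · rw [union_glued]
      rintro _ (⟨u, hu, rfl⟩ | ⟨u, hu, rfl⟩) _ (⟨v, hv, rfl⟩ | ⟨v, hv, rfl⟩) he
      · rw [hf1, hg1] at he
        exact (glued_nb11 h _ _ u v).mpr (a3 u hu v hv he)
      · rw [hf1, hg2] at he
        exact ((glued_nb12 h _ _ u v).mpr (c3 u hu v hv he)).symm
      · rw [hf2, hg1] at he
        exact (glued_nb12 h _ _ v u).mpr (c4 v hv u hu he.symm)
      · rw [hf2, hg2] at he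
        exact (nb22 h _ _ u v).mpr (b3 u hu v hv he)

theorem nok_iff_compat (h : Glued G G1 G2 i j (fun v w => r (lam1 v) (lam2 w)))
    (A1 B1 : Set V) (A2 B2 : Set W) :
    NOk G k (i '' A1 ∪ j '' A2) (i '' B1 ∪ j '' B2) ↔
      ∃ (σ : Sg k L M) (τ : Sg k M L),
        PL G1 lam1 r (lam2 '' A2ᶜ) (lam2 '' B2ᶜ) (lam2 '' (A2 ∪ B2)ᶜ) A1 B1 σ ∧
        PL G2 lam2 (fun m l => r l m) (lam1 '' A1ᶜ) (lam1 '' B1ᶜ) (lam1 '' (A1 ∪ B1)ᶜ)
          A2 B2 τ ∧ Compat σ τ := by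
  rw [nok_iff_cross h]
  constructor
  · rintro ⟨f1, g1, f2, g2, h1, h2, h3⟩
    exact ⟨_, _, ⟨f1, g1, h1, rfl⟩, ⟨f2, g2, h2, rfl⟩, compat_iff.mpr h3⟩
  · rintro ⟨σ, τ, ⟨f1, g1, h1, rfl⟩, ⟨f2, g2, h2, rfl⟩, h3⟩
    exact ⟨f1, g1, f2, g2, h1, h2, compat_iff.mp h3⟩

theorem mc_le {κ : Type} [Finite V] {F1 F2 F : Set M} {A B : Set V} {f g : V → κ} {n : ℕ}
    (h : LV G1 lam1 r F1 F2 F A B f g) (hn : (f '' A ∪ g '' B).ncard ≤ n) :
    mc G1 lam1 r F1 F2 F A B ≤ n := by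
  set S : Set κ := f '' A ∪ g '' B with hS
  have hfS : ∀ u ∈ A, f u ∈ S := fun u hu => Or.inl ⟨u, hu, rfl⟩
  have hgS : ∀ u ∈ B, g u ∈ S := fun u hu => Or.inr ⟨u, hu, rfl⟩
  have hfin : S.Finite := Set.toFinite _
  have hFS : Finite S := hfin
  obtain ⟨e, he⟩ : ∃ e : κ → ℕ, ∀ x ∈ S, ∀ y ∈ S, e x = e y → x = y := by
    refine ⟨fun x => if hx : x ∈ S then (Finite.equivFin S ⟨x, hx⟩ : ℕ) else 0, ?_⟩
    intro x hx y hy hxy
    simp only [hx, hy, dite_true] at hxy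
    have := (Finite.equivFin S).injective (Fin.val_injective hxy)
    exact congrArg Subtype.val this
  refine le_trans (Nat.sInf_le (m := (e '' S).ncard) ?_) ?_
  · refine ⟨fun v => e (f v), fun v => e (g v), ⟨?_, ?_, ?_⟩, ?_⟩
    · exact fun u hu v hv huv => h.1 u hu v hv (he _ (hfS u hu) _ (hfS v hv) huv)
    · exact fun u hu v hv huv => h.2.1 u hu v hv (he _ (hgS u hu) _ (hgS v hv) huv)
    · exact fun u hu v hv huv => h.2.2 u hu v hv (he _ (hfS u hu) _ (hgS v hv) huv)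
    · congr 1
      rw [hS, Set.image_union, Set.image_image, Set.image_image]
  · exact (Set.ncard_image_le hfin).trans hn

theorem exists_mc [Finite V] (G1 : SimpleGraph V) (lam1 : V → L) (r : L → M → Prop)
    (F1 F2 F : Set M) (A B : Set V) : ∃ f g : V → ℕ, LV G1 lam1 r F1 F2 F A B f g ∧
      (f '' A ∪ g '' B).ncard = mc G1 lam1 r F1 F2 F A B := by
  refine Nat.sInf_mem (s := {n | ∃ f g : V → ℕ, LV G1 lam1 r F1 F2 F A B f g ∧
    (f '' A ∪ g '' B).ncard = n}) ?_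
  set e : V → ℕ := fun v => (Finite.equivFin V v : ℕ) with he
  have hinj : ∀ u v, e u = e v → u = v := fun u v h =>
    (Finite.equivFin V).injective (Fin.val_injective h)
  refine ⟨_, e, e, ⟨?_, ?_, ?_⟩, rfl⟩
  · intro u _ v _ huv; rw [hinj u v huv]
  · intro u _ v _ huv; rw [hinj u v huv]
  · intro u _ v _ huv; rw [hinj u v huv]

/-- The count before a step is at most the cost of the step. -/
theorem alpha_le_mc [Finite V] (G1 : SimpleGraph V) (lam1 : V → L) (r : L → M → Prop)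
    (F1 F2 F : Set M) (A B : Set V) : alpha G1 lam1 r A F1 ≤ mc G1 lam1 r F1 F2 F A B := by
  obtain ⟨f, g, h1, h2⟩ := exists_mc G1 lam1 r F1 F2 F A B
  rw [← h2]
  unfold alpha
  refine (ncard_factor (c := f) (Set.toFinite _) h1.1).trans ?_
  exact Set.ncard_le_ncard Set.subset_union_left (Set.toFinite _)

variable [Finite X]

theorem alpha_eq_left (h : Glued G G1 G2 i j (fun v w => r (lam1 v) (lam2 w))) (A1 : Set V)
    (A2 : Set W) : (nb G (i '' A1 ∪ j '' A2) '' (i '' A1)).ncard =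
      alpha G1 lam1 r A1 (lam2 '' A2ᶜ) := by
  unfold alpha
  rw [Set.image_image]
  exact ncard_image_congr h fun a _ b _ => glued_nb11 h A1 A2 a b

/-- The number of classes with vertices of the second side only. -/
theorem only_right (h : Glued G G1 G2 i j (fun v w => r (lam1 v) (lam2 w))) (A1 : Set V)
    (A2 : Set W) :
    (nb G (i '' A1 ∪ j '' A2) '' (j '' A2) \ nb G (i '' A1 ∪ j '' A2) '' (i '' A1)).ncard +
      ov r (dat G1 lam1 r A1) (dat G2 lam2 (fun m l => r l m) A2) =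
      alpha G2 lam2 (fun m l => r l m) A2 (lam1 '' A1ᶜ) := by
  have h1 := glued_cnt h A1 A2
  have h2 := alpha_eq_left h A1 A2
  have h3 : (dat G2 lam2 (fun m l => r l m) A2).fut = lam2 '' A2ᶜ := rfl
  have h4 : (dat G1 lam1 r A1).fut = lam1 '' A1ᶜ := rfl
  rw [h3, h4] at h1
  have h5 : cnt G (i '' A1 ∪ j '' A2) =
      (nb G (i '' A1 ∪ j '' A2) '' (j '' A2) \ nb G (i '' A1 ∪ j '' A2) '' (i '' A1)).ncard +
      (nb G (i '' A1 ∪ j '' A2) '' (i '' A1)).ncard := by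
    unfold cnt
    rw [← Set.ncard_union_eq Set.disjoint_sdiff_left (Set.toFinite _) (Set.toFinite _)]
    congr 1
    rw [Set.sdiff_union_self, Set.image_union (nb G (i '' A1 ∪ j '' A2)), Set.union_comm]
  omega

/-- The lower bound for a composition. -/
theorem nok_ge (h : Glued G G1 G2 i j (fun v w => r (lam1 v) (lam2 w)))
    {A1 B1 : Set V} {A2 B2 : Set W} (hn : NOk G k (i '' A1 ∪ j '' A2) (i '' B1 ∪ j '' B2)) :
    mc G1 lam1 r (lam2 '' A2ᶜ) (lam2 '' B2ᶜ) (lam2 '' (A2 ∪ B2)ᶜ) A1 B1 +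
      alpha G2 lam2 (fun m l => r l m) (A2 ∪ B2) (lam1 '' (A1 ∪ B1)ᶜ) ≤
      k + ov r (dat G1 lam1 r (A1 ∪ B1)) (dat G2 lam2 (fun m l => r l m) (A2 ∪ B2)) := by
  have hV : Finite V := Finite.of_injective i h.inj1
  obtain ⟨f, g, h1, h2, h3⟩ := hn
  have h4 := only_right h (A1 ∪ B1) (A2 ∪ B2)
  set C : Set X := i '' (A1 ∪ B1) ∪ j '' (A2 ∪ B2) with hC
  have hU : (i '' A1 ∪ j '' A2) ∪ (i '' B1 ∪ j '' B2) = C := union_glued _ _ _ _
  rw [hU] at h3
  have h1' : ∀ u ∈ i '' A1 ∪ j '' A2, ∀ v ∈ i '' A1 ∪ j '' A2, f u = f v →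
      nb G C u = nb G C v := by
    intro u hu v hv he
    rw [← hU]
    exact nb_union_eq (h1 u hu v hv he)
  have h2' : ∀ u ∈ i '' B1 ∪ j '' B2, ∀ v ∈ i '' B1 ∪ j '' B2, g u = g v →
      nb G C u = nb G C v := by
    intro u hu v hv he
    rw [← hU]
    exact nb_union_eq' (h2 u hu v hv he)
  set S : Set (Fin k) := f '' (i '' A1) ∪ g '' (i '' B1) with hS
  set R : Set (Set X) := nb G C '' (j '' (A2 ∪ B2)) \ nb G C '' (i '' (A1 ∪ B1)) with hR
  have h5 : mc G1 lam1 r (lam2 '' A2ᶜ) (lam2 '' B2ᶜ) (lam2 '' (A2 ∪ B2)ᶜ) A1 B1 ≤ S.ncard := by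
    refine mc_le (f := fun v => f (i v)) (g := fun v => g (i v)) ⟨?_, ?_, ?_⟩ (le_of_eq ?_)
    · intro u hu v hv he
      exact (glued_nb11 h A1 A2 u v).mp (h1 _ (Or.inl ⟨u, hu, rfl⟩) _ (Or.inl ⟨v, hv, rfl⟩) he)
    · intro u hu v hv he
      exact (glued_nb11 h B1 B2 u v).mp (h2 _ (Or.inl ⟨u, hu, rfl⟩) _ (Or.inl ⟨v, hv, rfl⟩) he)
    · intro u hu v hv he
      exact (glued_nb11 h _ _ u v).mp (h3 _ (Or.inl ⟨u, hu, rfl⟩) _ (Or.inl ⟨v, hv, rfl⟩) he)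
    · rw [hS, Set.image_image, Set.image_image]
  -- the colour of a vertex of the second side
  set c : W → Fin k := fun w => if w ∈ A2 then f (j w) else g (j w) with hc
  have hcc : ∀ w ∈ A2 ∪ B2, ∀ w' ∈ A2 ∪ B2, c w = c w' → nb G C (j w) = nb G C (j w') := by
    intro w hw w' hw' he
    simp only [hc] at he
    by_cases hwA : w ∈ A2
    · by_cases hwA' : w' ∈ A2
      · rw [if_pos hwA, if_pos hwA'] at he
        exact h1' _ (Or.inr ⟨w, hwA, rfl⟩) _ (Or.inr ⟨w', hwA', rfl⟩) he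
      · rw [if_pos hwA, if_neg hwA'] at he
        exact h3 _ (Or.inr ⟨w, hwA, rfl⟩) _ (Or.inr ⟨w', hw'.resolve_left hwA', rfl⟩) he
    · by_cases hwA' : w' ∈ A2
      · rw [if_neg hwA, if_pos hwA'] at he
        exact (h3 _ (Or.inr ⟨w', hwA', rfl⟩) _ (Or.inr ⟨w, hw.resolve_left hwA, rfl⟩)
          he.symm).symm
      · rw [if_neg hwA, if_neg hwA'] at he
        exact h2' _ (Or.inr ⟨w, hw.resolve_left hwA, rfl⟩) _
          (Or.inr ⟨w', hw'.resolve_left hwA', rfl⟩) he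
  have hcS : ∀ w ∈ A2 ∪ B2, c w ∈ S → nb G C (j w) ∈ nb G C '' (i '' (A1 ∪ B1)) := by
    rintro w hw (⟨_, ⟨u, hu, rfl⟩, he⟩ | ⟨_, ⟨u, hu, rfl⟩, he⟩)
    · refine ⟨i u, ⟨u, Or.inl hu, rfl⟩, ?_⟩
      simp only [hc] at he
      by_cases hwA : w ∈ A2
      · rw [if_pos hwA] at he
        exact h1' _ (Or.inl ⟨u, hu, rfl⟩) _ (Or.inr ⟨w, hwA, rfl⟩) he
      · rw [if_neg hwA] at he
        exact h3 _ (Or.inl ⟨u, hu, rfl⟩) _ (Or.inr ⟨w, hw.resolve_left hwA, rfl⟩) he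
    · refine ⟨i u, ⟨u, Or.inr hu, rfl⟩, ?_⟩
      simp only [hc] at he
      by_cases hwA : w ∈ A2
      · rw [if_pos hwA] at he
        exact (h3 _ (Or.inr ⟨w, hwA, rfl⟩) _ (Or.inl ⟨u, hu, rfl⟩) he.symm).symm
      · rw [if_neg hwA] at he
        exact h2' _ (Or.inl ⟨u, hu, rfl⟩) _ (Or.inr ⟨w, hw.resolve_left hwA, rfl⟩) he
  -- the classes of the second side only
  set T : Set W := {w | w ∈ A2 ∪ B2 ∧ nb G C (j w) ∉ nb G C '' (i '' (A1 ∪ B1))} with hT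
  have hW : Finite W := Finite.of_injective j h.inj2
  have h6 : R = (fun w => nb G C (j w)) '' T := by
    ext x
    constructor
    · rintro ⟨⟨_, ⟨w, hw, rfl⟩, rfl⟩, hx⟩
      exact ⟨w, ⟨hw, hx⟩, rfl⟩
    · rintro ⟨w, ⟨hw, hx⟩, rfl⟩
      exact ⟨⟨_, ⟨w, hw, rfl⟩, rfl⟩, hx⟩
  have h7 : R.ncard ≤ (c '' T).ncard := by
    rw [h6]
    exact ncard_factor (Set.toFinite _) fun w hw w' hw' he => hcc w hw.1 w' hw'.1 he
  have h8 : Disjoint S (c '' T) := by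
    rw [Set.disjoint_left]
    rintro _ hx ⟨w, hw, rfl⟩
    exact hw.2 (hcS w hw.1 hx)
  have h9 : S.ncard + (c '' T).ncard ≤ k := by
    rw [← Set.ncard_union_eq h8 (Set.toFinite _) (Set.toFinite _)]
    refine (Set.ncard_le_ncard (Set.subset_univ _) Set.finite_univ).trans ?_
    rw [Set.ncard_univ, Nat.card_eq_fintype_card, Fintype.card_fin]
  omega

/-- The upper bound for adding a set of the first side, if the data do not change. -/
theorem nok_left (h : Glued G G1 G2 i j (fun v w => r (lam1 v) (lam2 w)))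
    {A1 B : Set V} {A2 : Set W} (hB : B.Nonempty)
    (hdat : dat G1 lam1 r (A1 ∪ B) = dat G1 lam1 r A1)
    (hk : mc G1 lam1 r (lam2 '' A2ᶜ) (lam2 '' Set.univ) (lam2 '' A2ᶜ) A1 B +
      alpha G2 lam2 (fun m l => r l m) A2 (lam1 '' A1ᶜ) ≤
      k + ov r (dat G1 lam1 r A1) (dat G2 lam2 (fun m l => r l m) A2)) :
    NOk G k (i '' A1 ∪ j '' A2) (i '' B) := by
  have hV : Finite V := Finite.of_injective i h.inj1
  have hW : Finite W := Finite.of_injective j h.inj2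
  obtain ⟨f, g, ⟨a1, a2, a3⟩, hfg⟩ := exists_mc G1 lam1 r (lam2 '' A2ᶜ) (lam2 '' Set.univ)
    (lam2 '' A2ᶜ) A1 B
  have h4 := only_right h A1 A2
  set A : Set X := i '' A1 ∪ j '' A2 with hA
  have hC : A ∪ i '' B = i '' (A1 ∪ B) ∪ j '' A2 := by
    rw [hA, Set.image_union, Set.union_assoc, Set.union_assoc, Set.union_comm (i '' B)]
  -- vertices of the second side with a partner
  set mx : W → Prop := fun w => ∃ u ∈ A1, nb G A (j w) = nb G A (i u) with hmx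
  set F2 : W → ℕ ⊕ Set X := fun w => if hw : mx w then Sum.inl (f hw.choose) else
    Sum.inr (nb G A (j w)) with hF2
  have hpos : ∀ w, ∀ hw : mx w, F2 w = Sum.inl (f hw.choose) := by
    intro w hw
    simp only [hF2, hw, dite_true]
  have hneg : ∀ w, ¬ mx w → F2 w = Sum.inr (nb G A (j w)) := by
    intro w hw
    simp only [hF2, hw, dite_false]
  obtain ⟨F, hFi, hFj⟩ := glue_fun h (fun v => (Sum.inl (f v) : ℕ ⊕ Set X)) F2
  obtain ⟨K, hKi, hKj⟩ := glue_fun h (fun v => (Sum.inl (g v) : ℕ ⊕ Set X)) F2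
  have hff : ∀ u ∈ A1, ∀ v ∈ A1, f u = f v → nb G A (i u) = nb G A (i v) :=
    fun u hu v hv he => (glued_nb11 h A1 A2 u v).mpr (a1 u hu v hv he)
  have hmix : ∀ w ∈ A2, ∀ u ∈ A1 ∪ B, nb G (A ∪ i '' B) (j w) = nb G (A ∪ i '' B) (i u) →
      mx w := by
    intro w hw u hu he
    rw [hC] at he
    obtain ⟨h5, h6⟩ := (glued_nb12 h (A1 ∪ B) A2 u w).mp he
    have h7 : (lam1 u, lam2 w) ∈ (dat G1 lam1 r (A1 ∪ B)).Y := ⟨u, hu, rfl, h5⟩
    rw [hdat] at h7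
    obtain ⟨u', hu', h8, h9⟩ := h7
    simp only at h8 h9
    refine ⟨u', hu', (glued_nb12 h A1 A2 u' w).mpr ⟨h9, ?_⟩⟩
    rw [h8]
    exact h6
  refine nok_of_labels ?_ F K ?_ ?_ ?_ ?_
  · obtain ⟨v, hv⟩ := hB
    exact ⟨i v, Or.inr ⟨v, hv, rfl⟩⟩
  · rintro _ (⟨u, hu, rfl⟩ | ⟨u, hu, rfl⟩) _ (⟨v, hv, rfl⟩ | ⟨v, hv, rfl⟩) he
    · rw [hFi, hFi, Sum.inl.injEq] at he
      exact hff u hu v hv he
    · rw [hFi, hFj] at he
      by_cases hm : mx v
      · rw [hpos v hm, Sum.inl.injEq] at he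
        exact (hff u hu _ hm.choose_spec.1 he).trans hm.choose_spec.2.symm
      · rw [hneg v hm] at he
        exact absurd he (by simp)
    · rw [hFi, hFj] at he
      by_cases hm : mx u
      · rw [hpos u hm, Sum.inl.injEq] at he
        exact hm.choose_spec.2.trans (hff _ hm.choose_spec.1 v hv he)
      · rw [hneg u hm] at he
        exact absurd he (by simp)
    · rw [hFj, hFj] at he
      by_cases hm : mx u
      · by_cases hm' : mx v
        · rw [hpos u hm, hpos v hm', Sum.inl.injEq] at he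
          exact hm.choose_spec.2.trans
            ((hff _ hm.choose_spec.1 _ hm'.choose_spec.1 he).trans hm'.choose_spec.2.symm)
        · rw [hpos u hm, hneg v hm'] at he
          exact absurd he (by simp)
      · by_cases hm' : mx v
        · rw [hneg u hm, hpos v hm'] at he
          exact absurd he (by simp)
        · rw [hneg u hm, hneg v hm', Sum.inr.injEq] at he
          exact he
  · rintro _ ⟨u, hu, rfl⟩ _ ⟨v, hv, rfl⟩ he
    rw [hKi, hKi, Sum.inl.injEq] at he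
    have h5 := a2 u hu v hv he
    have h6 := glued_nb11 h B ∅ u v
    rw [Set.image_empty, Set.union_empty, Set.compl_empty] at h6
    exact h6.mpr h5
  · rintro _ (⟨u, hu, rfl⟩ | ⟨u, hu, rfl⟩) _ ⟨v, hv, rfl⟩ he
    · rw [hFi, hKi, Sum.inl.injEq] at he
      rw [hC]
      exact (glued_nb11 h _ _ u v).mpr (a3 u hu v hv he)
    · rw [hFj, hKi] at he
      by_cases hm : mx u
      · rw [hpos u hm, Sum.inl.injEq] at he
        have h5 := hm.choose_spec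
        refine (nb_union_eq h5.2).trans ?_
        rw [hC]
        exact (glued_nb11 h _ _ _ v).mpr (a3 _ h5.1 v hv he)
      · rw [hneg u hm] at he
        exact absurd he (by simp)
  · -- the number of labels
    set R : Set (Set X) := nb G A '' (j '' A2) \ nb G A '' (i '' A1) with hR
    have h5 : F '' A ∪ K '' (i '' B) ⊆ Sum.inl '' (f '' A1 ∪ g '' B) ∪ Sum.inr '' R := by
      rintro _ (⟨_, ⟨u, hu, rfl⟩ | ⟨u, hu, rfl⟩, rfl⟩ | ⟨_, ⟨u, hu, rfl⟩, rfl⟩)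
      · rw [hFi]
        exact Or.inl ⟨_, Or.inl ⟨u, hu, rfl⟩, rfl⟩
      · rw [hFj]
        by_cases hm : mx u
        · rw [hpos u hm]
          exact Or.inl ⟨_, Or.inl ⟨_, hm.choose_spec.1, rfl⟩, rfl⟩
        · rw [hneg u hm]
          refine Or.inr ⟨_, ⟨⟨_, ⟨u, hu, rfl⟩, rfl⟩, ?_⟩, rfl⟩
          rintro ⟨_, ⟨v, hv, rfl⟩, he⟩
          exact hm ⟨v, hv, he.symm⟩
      · rw [hKi]
        exact Or.inl ⟨_, Or.inr ⟨u, hu, rfl⟩, rfl⟩
    have h6 : (Sum.inl '' (f '' A1 ∪ g '' B) ∪ Sum.inr '' R : Set (ℕ ⊕ Set X)).ncard ≤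
        mc G1 lam1 r (lam2 '' A2ᶜ) (lam2 '' Set.univ) (lam2 '' A2ᶜ) A1 B + R.ncard := by
      refine (Set.ncard_union_le _ _).trans ?_
      rw [Set.ncard_image_of_injective _ Sum.inl_injective,
        Set.ncard_image_of_injective _ Sum.inr_injective, hfg]
    have h7 := Set.ncard_le_ncard h5 (Set.toFinite _)
    omega

end

end Pool.Agent.R545.Nl
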