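import Pool.Agent.R545.Mw.Machine
import Pool.Agent.R545.Mw.Defs

/-!
# Exact NLC-width: trees, and decorated shapes for the two sides of a glued graph
-/

namespace Pool.Agent.R545.Nl

open Classical Pool.Agent.R545.Lc Pool.Agent.R545.Mw

/-- The disjoint sets `A` and `B` can be labelled with `k` labels such that vertices of `A` with
the same label agree outside of `A`, the same for `B`, and a vertex of `A` and a vertex of `B` with
the same label agree outside of `A ∪ B`. -/
def NOk {X : Type} (G : SimpleGraph X) (k : ℕ) (A B : Set X) : Prop :=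
  ∃ f g : X → Fin k,
    (∀ u ∈ A, ∀ v ∈ A, f u = f v → nb G A u = nb G A v) ∧
    (∀ u ∈ B, ∀ v ∈ B, g u = g v → nb G B u = nb G B v) ∧
    (∀ u ∈ A, ∀ v ∈ B, f u = g v → nb G (A ∪ B) u = nb G (A ∪ B) v)

/-- The set of vertices is the root of a tree whose leaves are single vertices, and all of whose
compositions are possible with `k` labels. -/
inductive NT {X : Type} (G : SimpleGraph X) (k : ℕ) : Set X → Prop
  | single (v : X) : 1 ≤ k → NT G k {v}
  | union (A B : Set X) : Disjoint A B → NT G k A → NT G k B → NOk G k A B → NT G k (A ∪ B)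

/-- The tree form of NLC-width at most `k`; graphs without vertices are included. -/
def NtLE {V : Type} (G : SimpleGraph V) (k : ℕ) : Prop := IsEmpty V ∨ NT G k Set.univ

variable {V W X L M : Type}

/-- Valid labellings of two sets of one side of a glued graph; the sets `F1`, `F2` and `F` are
the labels of the vertices of the other side outside of the other parts of the two sets and of
their union. -/
def LV {κ : Type} (G : SimpleGraph V) (lam : V → L) (r : L → M → Prop) (F1 F2 F : Set M)
    (A B : Set V) (f g : V → κ) : Prop :=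
  (∀ u ∈ A, ∀ v ∈ A, f u = f v → row G lam r A F1 u = row G lam r A F1 v) ∧
  (∀ u ∈ B, ∀ v ∈ B, g u = g v → row G lam r B F2 u = row G lam r B F2 v) ∧
  (∀ u ∈ A, ∀ v ∈ B, f u = g v → row G lam r (A ∪ B) F u = row G lam r (A ∪ B) F v)

/-- The least number of labels of valid labellings. -/
noncomputable def mc (G : SimpleGraph V) (lam : V → L) (r : L → M → Prop) (F1 F2 F : Set M)
    (A B : Set V) : ℕ :=
  sInf {n | ∃ f g : V → ℕ, LV G lam r F1 F2 F A B f g ∧ (f '' A ∪ g '' B).ncard = n}

/-- What the other side has to know about a pair of labellings. -/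
@[ext] structure Sg (k : ℕ) (L M : Type) where
  /-- the pairs of a label and a colour of vertices of the first set -/
  u1 : Set (Fin k × L)
  /-- the same for the second set -/
  u2 : Set (Fin k × L)
  /-- the labels of the other side that match all vertices of a colour outside of the first set -/
  n1 : Set (Fin k × M)
  /-- the same for the second set -/
  n2 : Set (Fin k × M)
  /-- vertices of the first set, outside of the union -/
  n11 : Set (Fin k × M)
  /-- vertices of the second set, outside of the union -/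
  n22 : Set (Fin k × M)

/-- The summary of a pair of labellings. -/
def sgOf {k : ℕ} (G : SimpleGraph V) (lam : V → L) (r : L → M → Prop) (A B : Set V)
    (f g : V → Fin k) : Sg k L M where
  u1 := {p | ∃ u ∈ A, f u = p.1 ∧ lam u = p.2}
  u2 := {p | ∃ u ∈ B, g u = p.1 ∧ lam u = p.2}
  n1 := {p | ∀ u ∈ A, f u = p.1 → Mat G lam r A u p.2}
  n2 := {p | ∀ u ∈ B, g u = p.1 → Mat G lam r B u p.2}
  n11 := {p | ∀ u ∈ A, f u = p.1 → Mat G lam r (A ∪ B) u p.2}
  n22 := {p | ∀ u ∈ B, g u = p.1 → Mat G lam r (A ∪ B) u p.2}

/-- The summary `σ` is the summary of valid labellings. -/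
def PL {k : ℕ} (G : SimpleGraph V) (lam : V → L) (r : L → M → Prop) (F1 F2 F : Set M)
    (A B : Set V) (σ : Sg k L M) : Prop :=
  ∃ f g : V → Fin k, LV G lam r F1 F2 F A B f g ∧ σ = sgOf G lam r A B f g

/-- The summaries of the two sides fit together. -/
def Compat {k : ℕ} (σ : Sg k L M) (τ : Sg k M L) : Prop :=
  τ.u1 ⊆ σ.n1 ∧ σ.u1 ⊆ τ.n1 ∧ τ.u2 ⊆ σ.n2 ∧ σ.u2 ⊆ τ.n2 ∧
  τ.u2 ⊆ σ.n11 ∧ σ.u1 ⊆ τ.n22 ∧ τ.u1 ⊆ σ.n22 ∧ σ.u2 ⊆ τ.n11

/-- Pure trees of one side; `F` is the set of all labels of the other side. -/
inductive PT (k : ℕ) (G : SimpleGraph V) (lam : V → L) (r : L → M → Prop) (F : Set M) :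
    Set V → Prop
  | single (v : V) : 1 ≤ k → PT k G lam r F {v}
  | union (A B : Set V) : Disjoint A B → PT k G lam r F A → PT k G lam r F B →
      (∃ f g : V → Fin k, LV G lam r F F F A B f g) → PT k G lam r F (A ∪ B)

/-- The words of a chain of sets with constant data: the counts and the costs of the steps. -/
abbrev Wd := List (Unit × ℕ)

/-- A chain of sets from `A` to `C` whose increments are pure trees and whose data are always
`p`. `F0` is the set of all labels of the other side, `F` the set of the future labels. -/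
inductive Sg1 (k : ℕ) (G : SimpleGraph V) (lam : V → L) (r : L → M → Prop) (F0 F : Set M)
    (p : Dat L M) : Set V → Wd → Set V → Prop
  | nil (A : Set V) : dat G lam r A = p → Sg1 k G lam r F0 F p A [((), alpha G lam r A F)] A
  | cons {A B C : Set V} {w : Wd} : dat G lam r A = p → Disjoint A B → PT k G lam r F0 B →
      Sg1 k G lam r F0 F p (A ∪ B) w C →
      Sg1 k G lam r F0 F p A (((), alpha G lam r A F) :: ((), mc G lam r F F0 F A B) :: w) C

/-- The finite part of the decoration of a node: the summary of the labellings, and the data of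
this side and of the other side for the two children and for the union. -/
@[ext] structure Dec (k : ℕ) (L M : Type) where
  sg : Sg k L M
  d1 : Dat L M × Dat M L
  d2 : Dat L M × Dat M L
  d : Dat L M × Dat M L

/-- The decorations: a leaf has a flag (is this side empty?). -/
abbrev Bt (k : ℕ) (L M : Type) := Bool ⊕ (Dec k L M × Wd)

/-- The decorated shape is realised with top set `A`. -/
inductive Rl (k : ℕ) (G : SimpleGraph V) (lam : V → L) (r : L → M → Prop) (F0 : Set M) :
    Sh (Bt k L M) → Set V → Prop
  | empty : Rl k G lam r F0 (Sh.leaf (Sum.inl true)) ∅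
  | pure {A : Set V} : PT k G lam r F0 A → Rl k G lam r F0 (Sh.leaf (Sum.inl false)) A
  | node {A B C : Set V} {s t : Sh (Bt k L M)} {σ : Sg k L M} {q1 q2 q : Dat M L} {w : Wd} :
      Disjoint A B → Rl k G lam r F0 s A → Rl k G lam r F0 t B →
      PL G lam r q1.fut q2.fut q.fut A B σ →
      Sg1 k G lam r F0 q.fut (dat G lam r (A ∪ B)) (A ∪ B) w C →
      Rl k G lam r F0 (Sh.node (Sum.inr (⟨σ, (dat G lam r A, q1), (dat G lam r B, q2),
        (dat G lam r (A ∪ B), q)⟩, w)) s t) C

/-- Decorations of the two sides that fit together. -/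
def RD (k : ℕ) (r : L → M → Prop) : Bt k L M → Bt k M L → Prop
  | Sum.inl b, Sum.inl b' => b' = !b
  | Sum.inr (x, w), Sum.inr (y, w') => x.d1.swap = y.d1 ∧ x.d2.swap = y.d2 ∧ x.d.swap = y.d ∧
      Compat x.sg y.sg ∧ NW (fun a b : Unit × ℕ => a.2 + b.2 ≤ k + ov r x.d.1 x.d.2) w w'
  | _, _ => False

end Pool.Agent.R545.Nl
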