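import Pool.Agent.R545.Nl.Index
import Pool.Agent.R545.Mw.Final

/-!
# Recognising graphs of bounded NLC-width
-/

namespace Pool.Agent.R545.Nl

open Classical Pool.Agent.R545.Lc Pool.Agent.R545.Mw Pool.Agent.Helper856.Cw
  Pool.Agent.H333R2.Col Pool.Agent.H622R2 Pool.Agent.NPC

theorem nlcWidth_le_iff {V : Type} [Finite V] {G : SimpleGraph V} {k : ℕ} :
    nlcWidth G ≤ k ↔ NtLE G k := by
  rcases isEmpty_or_nonempty V with hV | hV
  · rw [nlcWidth_empty]
    exact iff_of_true (Nat.zero_le _) (Or.inl hV)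
  · constructor
    · intro h
      exact Or.inr ((nlcLE_iff_nt.mp (nlcLE_nlcWidth G)).mono h)
    · rintro (h | h)
      · exact (h.false hV.some).elim
      · exact Nat.sInf_le (nlcLE_iff_nt.mpr h)

theorem hasSplits_of_nlcWidth {V : Type} [Finite V] {G : SimpleGraph V} {k : ℕ}
    (h : nlcWidth G ≤ k) : HasSplits (2 * k + 1) G :=
  hasSplits_of_moduleWidth ((moduleWidth_le_nlcWidth G).trans h)

/-- For every `k`, the graphs of NLC-width at most `k` can be recognised in polynomial time. -/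
theorem nlc_inPP (k : ℕ) :
    InPP (fun M : List (List Bool) => nlcWidth (matGraph M) ≤ k) := by
  obtain ⟨m, χ, δ, acc, hδ, hacc⟩ := exists_machineP (ntLE_isoInv k) (finIndex_nt typical' k)
    (2 ^ (6 * (2 * k + 1)))
  exact inPP_of_finite_state (2 * k + 1) m (2 ^ (6 * (2 * k + 1))) (by omega) rfl
    (fun V G => nlcWidth G ≤ k) χ δ
    (fun X V W _ G G1 G2 i j l l1 l2 s f1 f2 => hδ X V W G G1 G2 i j l l1 l2 s f1 f2) acc
    (fun V _ G l => nlcWidth_le_iff.trans (hacc V G l))
    (fun V _ G h => hasSplits_of_nlcWidth h)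

end Pool.Agent.R545.Nl
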