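import Pool.Agent.R545.Nl.Inv
import Pool.Agent.R545.Nl.Char
import Pool.Agent.R545.Mw.Index

/-!
# NLC-width: finite index
-/

namespace Pool.Agent.R545.Nl

open Classical Pool.Agent.R545.Lc Pool.Agent.R545.Mw

variable {V W X L M : Type}

instance {k : ℕ} [Finite L] [Finite M] : Finite (Sg k L M) := by
  refine Finite.of_injective
    (fun d : Sg k L M => ((d.u1, d.u2, d.n1, d.n2, d.n11, d.n22) :
      Set (Fin k × L) × Set (Fin k × L) × Set (Fin k × M) × Set (Fin k × M) ×
      Set (Fin k × M) × Set (Fin k × M))) ?_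
  intro a b h
  simp only [Prod.mk.injEq] at h
  obtain ⟨h1, h2, h3, h4, h5, h6⟩ := h
  exact Sg.ext h1 h2 h3 h4 h5 h6

instance {k : ℕ} [Finite L] [Finite M] : Finite (Dec k L M) := by
  refine Finite.of_injective
    (fun d : Dec k L M => ((d.sg, d.d1, d.d2, d.d) :
      Sg k L M × (Dat L M × Dat M L) × (Dat L M × Dat M L) × (Dat L M × Dat M L))) ?_
  intro a b h
  simp only [Prod.mk.injEq] at h
  obtain ⟨h1, h2, h3, h4⟩ := h
  exact Dec.ext h1 h2 h3 h4

/-- The decoration `c` is a characteristic of the decoration `b`. -/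
def Cw {k : ℕ} : Bt k L M → Bt k L M → Prop
  | Sum.inl e, Sum.inl e' => e = e'
  | Sum.inr (x, w), Sum.inr (x', w') => x = x' ∧ DW dm w w' ∧ DW dm w' w
  | _, _ => False

theorem nw_mem {α β : Type} {R : α → β → Prop} {x : List α} {y : List β} (h : NW R x y) :
    ∀ a ∈ x, ∃ b ∈ y, R a b := by
  induction h with
  | @single a b h =>
    intro a' ha
    rw [List.mem_singleton] at ha
    exact ⟨b, by simp, ha ▸ h⟩
  | @left a b x y h _ ih =>
    intro a' ha
    rcases List.mem_cons.mp ha with rfl | ha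
    · exact ⟨b, by simp, h⟩
    · exact ih a' ha
  | @right a b x y h _ ih =>
    intro a' ha
    obtain ⟨b', hb', hR⟩ := ih a' ha
    exact ⟨b', List.mem_cons_of_mem _ hb', hR⟩

/-- The characteristic of a decoration. -/
theorem exists_cw {k N : ℕ} {r : L → M → Prop} (hN : ∀ (p : Dat L M) (q : Dat M L),
    k + ov r p q < N) {T : Set Wd} (hT : ∀ x : Wd, x ≠ [] →
      (x.map Prod.fst).Pairwise (· ≤ ·) → (∀ p ∈ x, p.2 < N) → ∃ y ∈ T, Eqw x y)
    {b : Bt k L M} {b' : Bt k M L} (h : RD k r b b') :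
    ∃ c : Bt k L M, c ∈ (Set.range Sum.inl ∪ Sum.inr '' (Set.univ ×ˢ T) : Set (Bt k L M)) ∧
      Cw b c ∧ ∀ b1, Cw b1 c → RD k r b1 b' := by
  rcases b with e | ⟨x, w⟩
  · refine ⟨Sum.inl e, Or.inl ⟨e, rfl⟩, rfl, ?_⟩
    rintro (e' | ⟨x', w'⟩) hc
    · simp only [Cw] at hc
      rw [hc]
      exact h
    · exact hc.elim
  · rcases b' with e' | ⟨y, w'⟩
    · exact h.elim
    · simp only [RD] at h
      obtain ⟨h1, h2, h3, h4, hw⟩ := h
      obtain ⟨z, hz, hz1, hz2⟩ := hT w hw.ne1
        (List.pairwise_of_forall fun _ _ => le_of_eq (Subsingleton.elim _ _)) (by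
          intro p hp
          obtain ⟨q, -, hq⟩ := nw_mem hw p hp
          have := hN x.d.1 x.d.2
          omega)
      have hcomp : ∀ {u v : Wd}, NW (fun a b : Unit × ℕ => a.2 + b.2 ≤ k + ov r x.d.1 x.d.2)
          u w' → DW dm u v → NW (fun a b : Unit × ℕ => a.2 + b.2 ≤ k + ov r x.d.1 x.d.2)
          v w' := by
        intro u v hu huv
        refine hu.comp (S := dm) ?_ v huv
        rintro a b d hab ⟨-, h6⟩
        omega
      refine ⟨Sum.inr (x, z), Or.inr ⟨(x, z), ⟨Set.mem_univ _, hz⟩, rfl⟩, ⟨rfl, hz1, hz2⟩, ?_⟩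
      rintro (e' | ⟨x', v⟩) hc
      · exact hc.elim
      · simp only [Cw] at hc
        obtain ⟨rfl, hc1, hc2⟩ := hc
        exact ⟨h1, h2, h3, h4, hcomp (hcomp hw hz1) hc2⟩

/-- The characteristic of a decorated shape. -/
theorem exists_cws {k N : ℕ} {r : L → M → Prop} (hN : ∀ (p : Dat L M) (q : Dat M L),
    k + ov r p q < N) {T : Set Wd} (hT : ∀ x : Wd, x ≠ [] →
      (x.map Prod.fst).Pairwise (· ≤ ·) → (∀ p ∈ x, p.2 < N) → ∃ y ∈ T, Eqw x y)
    {s : Sh (Bt k L M)} {t : Sh (Bt k M L)} (h : Sh.Rel (RD k r) s t) :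
    ∃ τ : Sh (Bt k L M), τ.leaves = s.leaves ∧
      τ.All (fun c => c ∈ (Set.range Sum.inl ∪ Sum.inr '' (Set.univ ×ˢ T) : Set (Bt k L M))) ∧
      Sh.Rel Cw s τ ∧ ∀ s', Sh.Rel Cw s' τ → Sh.Rel (RD k r) s' t := by
  induction h with
  | leaf hb =>
    obtain ⟨c, h1, h2, h3⟩ := exists_cw hN hT hb
    refine ⟨Sh.leaf c, rfl, h1, Sh.Rel.leaf h2, ?_⟩
    intro s' hs'
    cases hs' with
    | leaf h => exact Sh.Rel.leaf (h3 _ h)
  | node hb _ _ ih1 ih2 =>
    obtain ⟨c, h1, h2, h3⟩ := exists_cw hN hT hb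
    obtain ⟨τ1, a1, a2, a3, a4⟩ := ih1
    obtain ⟨τ2, b1, b2, b3, b4⟩ := ih2
    refine ⟨Sh.node c τ1 τ2, by simp only [Sh.leaves]; omega, ⟨h1, a2, b2⟩,
      Sh.Rel.node h2 a3 b3, ?_⟩
    intro s' hs'
    cases hs' with
    | node h h' h'' => exact Sh.Rel.node (h3 _ h) (a4 _ h') (b4 _ h'')

section

variable {G : SimpleGraph V} {lam : V → L} {r : L → M → Prop} {k : ℕ}

theorem PT.finite {F : Set M} {A : Set V} (h : PT k G lam r F A) : A.Finite := by
  induction h with
  | single v _ => exact Set.finite_singleton v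
  | union A B _ _ _ _ ih1 ih2 => exact ih1.union ih2

theorem Sg1.finite {F0 F : Set M} {p : Dat L M} {A C : Set V} {w : Wd}
    (h : Sg1 k G lam r F0 F p A w C) : A.Finite → C.Finite := by
  induction h with
  | nil A _ => exact id
  | cons _ _ hB _ ih => exact fun hA => ih (hA.union hB.finite)

theorem Rl.finite {F0 : Set M} {s : Sh (Bt k L M)} {A : Set V} (h : Rl k G lam r F0 s A) :
    A.Finite := by
  induction h with
  | empty => exact Set.finite_empty
  | pure h => exact h.finite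
  | node _ _ _ _ hch ih1 ih2 => exact hch.finite (ih1.union ih2)

end

theorem NtLE.finite {G : SimpleGraph V} {k : ℕ} (h : NtLE G k) : Finite V := by
  rcases h with h | h
  · infer_instance
  · exact Set.finite_univ_iff.mp (NT.finite h)

theorem finIndex_nt (hTyp : Typical) (k : ℕ) : FinIndex (fun _ G => NtLE G k) := by
  intro L _
  set r : L → Set L → Prop := fun a s => a ∈ s with hr
  set P := Dat L (Set L)
  set Q := Dat (Set L) L
  obtain ⟨N, hN⟩ : ∃ N, ∀ (p : P) (q : Q), k + ov r p q < N := by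
    obtain ⟨m, hm⟩ := (Set.finite_range (fun z : P × Q => ov r z.1 z.2)).bddAbove
    refine ⟨k + m + 1, fun p q => ?_⟩
    have := hm ⟨(p, q), rfl⟩
    simp only at this
    omega
  obtain ⟨T, hTf, hT⟩ := hTyp Unit N
  obtain ⟨R, hR⟩ := gn_of_nt k L (Set L)
  set TT : Set (Bt k L (Set L)) := Set.range Sum.inl ∪ Sum.inr '' (Set.univ ×ˢ T) with hTT
  have hTTf : TT.Finite :=
    (Set.finite_range _).union ((Set.Finite.prod (Set.toFinite _) hTf).image _)
  set TS : Set (Sh (Bt k L (Set L))) := {τ | τ.leaves ≤ R ∧ τ.All (fun b => b ∈ TT)}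
    with hTS
  have hTSf : Finite TS := finite_shapes hTTf R
  refine ⟨Set L × (Set (Set L) → Prop) × (Set (Set L) → Set TS), inferInstance,
    fun V G lam => (lam '' Set.univ,
      fun F2 => PT k G lam r F2 Set.univ,
      fun F2 => {τ | ∃ s, Rl k G lam r F2 s Set.univ ∧ Sh.Rel Cw s τ.1}), ?_⟩
  intro V V' W X X' G1 lam1 G1' lam1' G2 lam2 G G' i j i' j' hg hg' he hl
  simp only [Prod.mk.injEq] at he
  obtain ⟨he1, he2, he3⟩ := he
  have hX := NtLE.finite hl
  have hW : Finite W := Finite.of_injective j hg.inj2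
  have hcov' : ∀ (C1 : Set V') (C2 : Set W), C1 = Set.univ → C2 = Set.univ →
      i' '' C1 ∪ j' '' C2 = Set.univ := by
    rintro C1 C2 rfl rfl
    ext x
    rcases hg'.cover x with ⟨v, rfl⟩ | ⟨w, rfl⟩ <;> simp
  have hfinX' : Finite V' → Finite X' := by
    intro hV'
    refine Finite.of_surjective (Sum.elim i' j') ?_
    intro x
    rcases hg'.cover x with ⟨v, rfl⟩ | ⟨w, rfl⟩
    · exact ⟨Sum.inl v, rfl⟩
    · exact ⟨Sum.inr w, rfl⟩
  have hemp : IsEmpty V ↔ IsEmpty V' := by
    rw [← Set.univ_eq_empty_iff, ← Set.image_eq_empty (f := lam1), he1, Set.image_eq_empty,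
      Set.univ_eq_empty_iff]
  rcases isEmpty_or_nonempty V with hV | hV
  · -- the first side is empty
    have hV' := hemp.mp hV
    have hX' := hfinX' inferInstance
    rcases isEmpty_or_nonempty W with hW' | hW'
    · left
      refine ⟨fun x => ?_⟩
      rcases hg'.cover x with ⟨v, -⟩ | ⟨w, -⟩
      · exact isEmptyElim v
      · exact isEmptyElim w
    · rcases hl with hl | hl
      · exact (hl.false (j hW'.some)).elim
      · right
        have h1 := nt_restrict (r := fun m l => r l m) (lam1 := lam2) (lam2 := lam1) hg.swap hl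
          Set.univ ∅ (by
            ext x
            rcases hg.cover x with ⟨v, rfl⟩ | ⟨w, rfl⟩
            · exact isEmptyElim v
            · simp) Set.univ_nonempty (by simp)
        have h2 : lam1 '' Set.univ = lam1' '' Set.univ := he1
        rw [h2] at h1
        have h3 := nt_pure (r := fun m l => r l m) (lam1 := lam2) (lam2 := lam1') hg'.swap h1
        have h4 : j' '' (Set.univ : Set W) = Set.univ := by
          ext x
          rcases hg'.cover x with ⟨v, rfl⟩ | ⟨w, rfl⟩
          · exact isEmptyElim v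
          · simp
        rwa [h4] at h3
  · have hV' : Nonempty V' := by
      rw [← not_isEmpty_iff, ← hemp, not_isEmpty_iff]
      exact hV
    right
    have hl' : NT G k Set.univ := by
      rcases hl with hl | hl
      · exact (hl.false (i hV.some)).elim
      · exact hl
    rcases isEmpty_or_nonempty W with hW' | hW'
    · have h1 := nt_restrict (r := r) hg hl' Set.univ ∅ (by
            ext x
            rcases hg.cover x with ⟨v, rfl⟩ | ⟨w, rfl⟩
            · simp
            · exact isEmptyElim w) Set.univ_nonempty (by simp)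
      have h2 := congrFun he2 (lam2 '' Set.univ)
      rw [h2] at h1
      have hX' := hfinX' (Set.finite_univ_iff.mp (PT.finite h1))
      have h3 := nt_pure (r := r) (lam1 := lam1') (lam2 := lam2) hg' h1
      have h4 : i' '' (Set.univ : Set V') = Set.univ := by
        ext x
        rcases hg'.cover x with ⟨v, rfl⟩ | ⟨w, rfl⟩
        · simp
        · exact isEmptyElim w
      rwa [h4] at h3
    · obtain ⟨s, t, hs, ht, hst, hle⟩ := hR V W X G G1 G2 i j lam1 lam2 r hg hV hW' hl'
      obtain ⟨τ, a1, a2, a3, a4⟩ := exists_cws hN hT hst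
      have hτ : τ ∈ TS := ⟨by omega, a2⟩
      have h5 := congrFun he3 (lam2 '' Set.univ)
      have h6 : (⟨τ, hτ⟩ : TS) ∈ {τ : TS | ∃ s, Rl k G1 lam1 r (lam2 '' Set.univ) s Set.univ ∧
          Sh.Rel Cw s τ.1} := ⟨s, hs, a3⟩
      rw [h5] at h6
      obtain ⟨s', hs', ha'⟩ := h6
      have hX' := hfinX' (Set.finite_univ_iff.mp (Rl.finite hs'))
      have h7 : lam1 '' Set.univ = lam1' '' Set.univ := he1
      rw [h7] at ht
      have h8 := nt_of_rl (r := r) (lam1 := lam1') (lam2 := lam2) hg' (a4 s' ha') hs' ht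
      rwa [hcov' _ _ rfl rfl] at h8

end Pool.Agent.R545.Nl
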