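import Pool.Agent.R545.Nl.Trunk

/-!
# Every tree gives decorated shapes of bounded size
-/

namespace Pool.Agent.R545.Nl

open Classical Pool.Agent.R545.Lc Pool.Agent.R545.Mw

section

variable {V W X L M : Type} {G : SimpleGraph X} {G1 : SimpleGraph V} {G2 : SimpleGraph W}
  {i : V → X} {j : W → X} {lam1 : V → L} {lam2 : W → M} {r : L → M → Prop} {k K : ℕ}
  [Finite X]

/-- The number of exhausted labels. -/
noncomputable def eh (lam1 : V → L) (lam2 : W → M) (A1 : Set V) (A2 : Set W) : ℕ :=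
  (exh lam1 A1).ncard + (exh lam2 A2).ncard

/-- The rank of the data. -/
noncomputable def rh (G1 : SimpleGraph V) (G2 : SimpleGraph W) (lam1 : V → L) (lam2 : W → M)
    (r : L → M → Prop) (A1 : Set V) (A2 : Set W) : ℕ :=
  rkp (dat G1 lam1 r A1) + rkp (dat G2 lam2 (fun m l => r l m) A2)

/-- The bound: `n + C ≤ C * (e * (h + 3))` with `C = 4 * K + 4`. -/
def Bd (K n e h : ℕ) : Prop := n + (4 * K + 4) ≤ (4 * K + 4) * (e * (h + 3))

theorem Bd.mono {n e h e' h' : ℕ} (hb : Bd K n e h) (he : e ≤ e') (hh : h ≤ h') :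
    Bd K n e' h' := by
  unfold Bd at *
  exact hb.trans (Nat.mul_le_mul_left _ (Nat.mul_le_mul he (Nat.add_le_add_right hh 3)))

theorem Bd.small {n e h : ℕ} (hn : n ≤ 4) (he : 1 ≤ e) : Bd K n e h := by
  unfold Bd
  have h1 : 1 * (0 + 3) ≤ e * (h + 3) := Nat.mul_le_mul he (by omega)
  have h2 := Nat.mul_le_mul_left (4 * K + 4) h1
  omega

theorem Bd.add {n1 n2 e1 e2 e h1 h2 h : ℕ} (hb1 : Bd K n1 e1 h1) (hb2 : Bd K n2 e2 h2)
    (he : e1 + e2 ≤ e) (hh1 : h1 ≤ h) (hh2 : h2 ≤ h) : Bd K (n1 + n2 + 4 * K) e h := by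
  unfold Bd at *
  have a1 : e1 * (h1 + 3) ≤ e1 * (h + 3) := Nat.mul_le_mul_left _ (by omega)
  have a2 : e2 * (h2 + 3) ≤ e2 * (h + 3) := Nat.mul_le_mul_left _ (by omega)
  have a3 : (e1 + e2) * (h + 3) ≤ e * (h + 3) := Nat.mul_le_mul_right _ he
  have a4 : e1 * (h1 + 3) + e2 * (h2 + 3) ≤ e * (h + 3) := by
    rw [Nat.add_mul] at a3
    omega
  have a5 := Nat.mul_le_mul_left (4 * K + 4) a4
  rw [Nat.mul_add] at a5
  omega

theorem Bd.succ {n1 e1 e h1 h : ℕ} (hb1 : Bd K n1 e1 h1) (he : e1 ≤ e) (he1 : 1 ≤ e)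
    (hh : h1 < h) : Bd K (n1 + 2 * K + 2) e h := by
  unfold Bd at *
  have a1 : e1 * (h1 + 3) ≤ e * (h1 + 3) := Nat.mul_le_mul_right _ he
  have a2 : e * (h1 + 3) + e ≤ e * (h + 3) := by
    have : e * (h1 + 3 + 1) ≤ e * (h + 3) := Nat.mul_le_mul_left _ (by omega)
    rw [Nat.mul_add e (h1 + 3) 1, Nat.mul_one] at this
    exact this
  have a3 : e1 * (h1 + 3) + 1 ≤ e * (h + 3) := by omega
  have a5 := Nat.mul_le_mul_left (4 * K + 4) a3
  rw [Nat.mul_add] at a5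
  omega

variable (G G1 G2 i j lam1 lam2 r k K) in
/-- What we know about a node of the tree. -/
structure Iv (A1 : Set V) (A2 : Set W) : Prop where
  p1 : A1.Nonempty → (exh lam2 A2).ncard = 0 → PT k G1 lam1 r (lam2 '' Set.univ) A1
  p2 : A2.Nonempty → (exh lam1 A1).ncard = 0 →
    PT k G2 lam2 (fun m l => r l m) (lam1 '' Set.univ) A2
  ne : A1.Nonempty ∨ A2.Nonempty
  ct : cnt G (i '' A1 ∪ j '' A2) ≤ k
  gd : A1.Nonempty → A2.Nonempty → 1 ≤ eh lam1 lam2 A1 A2 →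
    ∃ n, Bd K n (eh lam1 lam2 A1 A2) (rh G1 G2 lam1 lam2 r A1 A2) ∧
      Tp G G1 G2 i j lam1 lam2 r k n A1 A2

variable [Finite L] [Finite M]

theorem low_gn (h : Glued G G1 G2 i j (fun v w => r (lam1 v) (lam2 w))) {B1 : Set V}
    {B2 : Set W} (hB : Iv G G1 G2 i j lam1 lam2 r k K B1 B2) (he : eh lam1 lam2 B1 B2 = 0) :
    Gn G1 G2 lam1 lam2 r k 2 B1 B2 := by
  have he1 : (exh lam1 B1).ncard = 0 := by unfold eh at he; omega
  have he2 : (exh lam2 B2).ncard = 0 := by unfold eh at he; omega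
  rcases B1.eq_empty_or_nonempty with rfl | hB1
  · have hB2 : B2.Nonempty := by
      rcases hB.ne with h | h
      · exact absurd h Set.not_nonempty_empty
      · exact h
    exact (gn_pure2 (hB.p2 hB2 he1)).mono (by omega)
  rcases B2.eq_empty_or_nonempty with rfl | hB2
  · exact (gn_pure1 (hB.p1 hB1 he2)).mono (by omega)
  · have h1 := gt_node h (gn_pure1 (G2 := G2) (hB.p1 hB1 he2)) (gn_pure2 (G1 := G1)
      (hB.p2 hB2 he1)) (Set.disjoint_empty _) (Set.empty_disjoint _)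
      (by
        rw [Set.image_empty, Set.union_empty, Set.image_empty, Set.empty_union]
        exact nok_join h hB1 (exh_zero he1) (exh_zero he2) hB.ct)
    rw [Set.union_empty, Set.empty_union] at h1
    exact h1.gn

theorem any_gn (h : Glued G G1 G2 i j (fun v w => r (lam1 v) (lam2 w)))
    (hK : ∀ (p : Dat L M) (q : Dat M L), k + ov r p q ≤ K) {B1 : Set V}
    {B2 : Set W} (hB : Iv G G1 G2 i j lam1 lam2 r k K B1 B2) (he : 1 ≤ eh lam1 lam2 B1 B2) :
    ∃ n, Bd K n (eh lam1 lam2 B1 B2) (rh G1 G2 lam1 lam2 r B1 B2) ∧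
      Gn G1 G2 lam1 lam2 r k (n + 2 * K) B1 B2 := by
  rcases B1.eq_empty_or_nonempty with rfl | hB1
  · have hB2 : B2.Nonempty := by
      rcases hB.ne with h | h
      · exact absurd h Set.not_nonempty_empty
      · exact h
    exact ⟨1, Bd.small (by omega) he, (gn_pure2 (hB.p2 hB2 (exh_empty lam1))).mono (by omega)⟩
  rcases B2.eq_empty_or_nonempty with rfl | hB2
  · exact ⟨1, Bd.small (by omega) he, (gn_pure1 (hB.p1 hB1 (exh_empty lam2))).mono (by omega)⟩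
  · obtain ⟨n, hn, hT⟩ := hB.gd hB1 hB2 he
    exact ⟨n, hn, (tp_close h hT hB.ct hK).gn⟩

omit [Finite L] [Finite M] in
theorem tp_top {n : ℕ} {A1 : Set V} {A2 : Set W} (hG : Gt G1 G2 lam1 lam2 r k n A1 A2) :
    Tp G G1 G2 i j lam1 lam2 r k n A1 A2 :=
  ⟨A1, A2, [], [], 0, hG, Pth.nil, rfl, rfl, rfl, rfl⟩

/-- Adding a set which exhausts no label, if the data do not change. -/
theorem tp_append (h : Glued G G1 G2 i j (fun v w => r (lam1 v) (lam2 w))) {n : ℕ}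
    {B1 C1 : Set V} {B2 C2 : Set W} (hC : Tp G G1 G2 i j lam1 lam2 r k n C1 C2)
    (hB : Iv G G1 G2 i j lam1 lam2 r k K B1 B2) (he : eh lam1 lam2 B1 B2 = 0)
    (hd1 : Disjoint C1 B1) (hd2 : Disjoint C2 B2)
    (e1 : dat G1 lam1 r (C1 ∪ B1) = dat G1 lam1 r C1)
    (e2 : dat G2 lam2 (fun m l => r l m) (C2 ∪ B2) = dat G2 lam2 (fun m l => r l m) C2)
    (hN : NOk G k (i '' C1 ∪ j '' C2) (i '' B1 ∪ j '' B2)) :
    Tp G G1 G2 i j lam1 lam2 r k n (C1 ∪ B1) (C2 ∪ B2) := by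
  have he1 : (exh lam1 B1).ncard = 0 := by unfold eh at he; omega
  have he2 : (exh lam2 B2).ncard = 0 := by unfold eh at he; omega
  obtain ⟨a, b, zs, ys, c, hG, hP, rfl, rfl, d1, d2⟩ := hC
  have g1 : lam1 '' (cur a zs)ᶜ = (dat G1 lam1 r a).fut := by rw [← d1]; rfl
  have g2 : lam2 '' (cur b ys)ᶜ = (dat G2 lam2 (fun m l => r l m) b).fut := by rw [← d2]; rfl
  have g3 : lam1 '' (cur a zs ∪ B1)ᶜ = (dat G1 lam1 r a).fut := by rw [← d1, ← e1]; rfl
  have g4 : lam2 '' (cur b ys ∪ B2)ᶜ = (dat G2 lam2 (fun m l => r l m) b).fut := by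
    rw [← d2, ← e2]; rfl
  rcases B2.eq_empty_or_nonempty with hB2 | hB2
  · subst hB2
    have hB1 : B1.Nonempty := by
      rcases hB.ne with h | h
      · exact h
      · exact absurd h Set.not_nonempty_empty
    have hp := hB.p1 hB1 he2
    rw [Set.union_empty] at e2 ⊢
    refine ⟨a, b, B1 :: zs, ys, c, hG, Pth.left hP ⟨⟨hd1, hp, d1, e1.trans d1⟩, ?_⟩, rfl, rfl,
      e1.trans d1, d2⟩
    have h1 := nok_ge h hN
    rw [g2, g3, g4, e1, d1, Set.union_empty, d2, Set.compl_empty] at h1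
    exact h1
  rcases B1.eq_empty_or_nonempty with hB1 | hB1
  · subst hB1
    have hp := hB.p2 hB2 he1
    rw [Set.union_empty] at e1 ⊢
    refine ⟨a, b, zs, B2 :: ys, c, hG, Pth.right hP ⟨⟨hd2, hp, d2, e2.trans d2⟩, ?_⟩, rfl, rfl,
      d1, e2.trans d2⟩
    rw [Set.union_comm (i '' cur a zs), Set.union_comm (i '' (∅ : Set V))] at hN
    have h1 := nok_ge (r := fun m l => r l m) (lam1 := lam2) (lam2 := lam1) h.swap hN
    rw [g1, g3, g4, e2, d2, Set.union_empty, Set.compl_empty] at h1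
    have h2 : dat G1 lam1 (fun l m => (fun m l => r l m) m l) (cur a zs) = dat G1 lam1 r a := d1
    rw [h2, ov_swap] at h1
    exact h1
  · have hp1 := hB.p1 hB1 he2
    have hp2 := hB.p2 hB2 he1
    exact ⟨a, b, B1 :: zs, B2 :: ys, c + 1, hG, Pth.diag hP
      ⟨⟨hd1, hp1, d1, e1.trans d1⟩, ⟨hd2, hp2, d2, e2.trans d2⟩, d1, d2, hN,
        nok_join h hB1 (exh_zero he1) (exh_zero he2) hB.ct, exh_zero he1, exh_zero he2⟩,
      rfl, rfl, e1.trans d1, e2.trans d2⟩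

theorem eh_mono {A1 B1 : Set V} {A2 B2 : Set W} (h1 : A1 ⊆ B1) (h2 : A2 ⊆ B2) :
    eh lam1 lam2 A1 A2 ≤ eh lam1 lam2 B1 B2 :=
  Nat.add_le_add (Set.ncard_le_ncard (exh_mono lam1 h1) (Set.toFinite _))
    (Set.ncard_le_ncard (exh_mono lam2 h2) (Set.toFinite _))

theorem rh_mono {A1 B1 : Set V} {A2 B2 : Set W} (h1 : A1 ⊆ B1) (h2 : A2 ⊆ B2) :
    rh G1 G2 lam1 lam2 r A1 A2 ≤ rh G1 G2 lam1 lam2 r B1 B2 :=
  Nat.add_le_add (rkp_mono (dat_mono _ _ _ h1)) (rkp_mono (dat_mono _ _ _ h2))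

/-- The first child exhausts no label. -/
theorem st_zero (h : Glued G G1 G2 i j (fun v w => r (lam1 v) (lam2 w)))
    (hK : ∀ (p : Dat L M) (q : Dat M L), k + ov r p q ≤ K)
    {B1 C1 : Set V} {B2 C2 : Set W} (hB : Iv G G1 G2 i j lam1 lam2 r k K B1 B2)
    (hC : Iv G G1 G2 i j lam1 lam2 r k K C1 C2) (hd1 : Disjoint C1 B1) (hd2 : Disjoint C2 B2)
    (hN : NOk G k (i '' C1 ∪ j '' C2) (i '' B1 ∪ j '' B2))
    (he : eh lam1 lam2 B1 B2 = 0) (he' : 1 ≤ eh lam1 lam2 (C1 ∪ B1) (C2 ∪ B2)) :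
    ∃ n, Bd K n (eh lam1 lam2 (C1 ∪ B1) (C2 ∪ B2))
      (rh G1 G2 lam1 lam2 r (C1 ∪ B1) (C2 ∪ B2)) ∧
      Tp G G1 G2 i j lam1 lam2 r k n (C1 ∪ B1) (C2 ∪ B2) := by
  have hgB := low_gn h hB he
  rcases Nat.eq_zero_or_pos (eh lam1 lam2 C1 C2) with hC0 | hC0
  · have hgC := low_gn h hC hC0
    exact ⟨_, Bd.small le_rfl he', tp_top (gt_node h hgC hgB hd1 hd2 hN)⟩
  by_cases hpure : C1 = ∅ ∨ C2 = ∅
  · -- a pure child
    have hg : Gn G1 G2 lam1 lam2 r k 1 C1 C2 := by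
      rcases hpure with rfl | rfl
      · have hC2 : C2.Nonempty := by
          rcases hC.ne with h | h
          · exact absurd h Set.not_nonempty_empty
          · exact h
        exact gn_pure2 (hC.p2 hC2 (exh_empty lam1))
      · have hC1 : C1.Nonempty := by
          rcases hC.ne with h | h
          · exact h
          · exact absurd h Set.not_nonempty_empty
        exact gn_pure1 (hC.p1 hC1 (exh_empty lam2))
    exact ⟨_, Bd.small (by omega) he', tp_top (gt_node h hg hgB hd1 hd2 hN)⟩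
  push Not at hpure
  obtain ⟨hC1, hC2⟩ := hpure
  have hle1 : dat G1 lam1 r C1 ≤ dat G1 lam1 r (C1 ∪ B1) := dat_mono _ _ _ Set.subset_union_left
  have hle2 : dat G2 lam2 (fun m l => r l m) C2 ≤ dat G2 lam2 (fun m l => r l m) (C2 ∪ B2) :=
    dat_mono _ _ _ Set.subset_union_left
  have hee := eh_mono (lam1 := lam1) (lam2 := lam2) (Set.subset_union_left (s := C1) (t := B1))
    (Set.subset_union_left (s := C2) (t := B2))
  by_cases hdat : dat G1 lam1 r (C1 ∪ B1) = dat G1 lam1 r C1 ∧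
      dat G2 lam2 (fun m l => r l m) (C2 ∪ B2) = dat G2 lam2 (fun m l => r l m) C2
  · obtain ⟨n, hn, hT⟩ := hC.gd hC1 hC2 hC0
    exact ⟨n, hn.mono hee (rh_mono Set.subset_union_left Set.subset_union_left),
      tp_append h hT hB he hd1 hd2 hdat.1 hdat.2 hN⟩
  · obtain ⟨n, hn, hG⟩ := any_gn h hK hC hC0
    have hlt : rh G1 G2 lam1 lam2 r C1 C2 < rh G1 G2 lam1 lam2 r (C1 ∪ B1) (C2 ∪ B2) := by
      unfold rh
      rcases eq_or_lt_of_le hle1 with e1 | e1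
      · rcases eq_or_lt_of_le hle2 with e2 | e2
        · exact absurd ⟨e1.symm, e2.symm⟩ hdat
        · exact Nat.add_lt_add_of_le_of_lt (rkp_mono hle1) (rkp_lt e2)
      · exact Nat.add_lt_add_of_lt_of_le (rkp_lt e1) (rkp_mono hle2)
    exact ⟨_, hn.succ hee he' hlt, tp_top (gt_node h hG hgB hd1 hd2 hN)⟩

theorem st_all (h : Glued G G1 G2 i j (fun v w => r (lam1 v) (lam2 w)))
    (hK : ∀ (p : Dat L M) (q : Dat M L), k + ov r p q ≤ K)
    {B1 C1 : Set V} {B2 C2 : Set W} (hB : Iv G G1 G2 i j lam1 lam2 r k K B1 B2)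
    (hC : Iv G G1 G2 i j lam1 lam2 r k K C1 C2) (hd1 : Disjoint B1 C1) (hd2 : Disjoint B2 C2)
    (hN : NOk G k (i '' B1 ∪ j '' B2) (i '' C1 ∪ j '' C2))
    (he' : 1 ≤ eh lam1 lam2 (B1 ∪ C1) (B2 ∪ C2)) :
    ∃ n, Bd K n (eh lam1 lam2 (B1 ∪ C1) (B2 ∪ C2))
      (rh G1 G2 lam1 lam2 r (B1 ∪ C1) (B2 ∪ C2)) ∧
      Tp G G1 G2 i j lam1 lam2 r k n (B1 ∪ C1) (B2 ∪ C2) := by
  rcases Nat.eq_zero_or_pos (eh lam1 lam2 B1 B2) with hB0 | hB0
  · rw [Set.union_comm B1, Set.union_comm B2] at *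
    exact st_zero h hK hB hC hd1.symm hd2.symm hN.symm hB0 he'
  rcases Nat.eq_zero_or_pos (eh lam1 lam2 C1 C2) with hC0 | hC0
  · exact st_zero h hK hC hB hd1 hd2 hN hC0 he'
  · obtain ⟨n, hn, hG⟩ := any_gn h hK hB hB0
    obtain ⟨m, hm, hG'⟩ := any_gn h hK hC hC0
    have a1 := exh_add lam1 hd1
    have a2 := exh_add lam2 hd2
    refine ⟨n + m + 4 * K, hn.add hm ?_
      (rh_mono Set.subset_union_left Set.subset_union_left)
      (rh_mono Set.subset_union_right Set.subset_union_right),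
      tp_top ((gt_node h hG hG' hd1 hd2 hN).mono (by omega))⟩
    unfold eh
    omega

theorem iv_of_nt (h : Glued G G1 G2 i j (fun v w => r (lam1 v) (lam2 w)))
    (hK : ∀ (p : Dat L M) (q : Dat M L), k + ov r p q ≤ K) {A : Set X}
    (hA : NT G k A) : ∀ (A1 : Set V) (A2 : Set W), A = i '' A1 ∪ j '' A2 →
      Iv G G1 G2 i j lam1 lam2 r k K A1 A2 := by
  have hp1 : ∀ {A : Set X}, NT G k A → ∀ (A1 : Set V) (A2 : Set W),
      A = i '' A1 ∪ j '' A2 → A1.Nonempty → (exh lam2 A2).ncard = 0 →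
      PT k G1 lam1 r (lam2 '' Set.univ) A1 := fun hA A1 A2 he hne h0 =>
    nt_restrict h hA A1 A2 he hne (exh_zero h0)
  have hp2 : ∀ {A : Set X}, NT G k A → ∀ (A1 : Set V) (A2 : Set W),
      A = i '' A1 ∪ j '' A2 → A2.Nonempty → (exh lam1 A1).ncard = 0 →
      PT k G2 lam2 (fun m l => r l m) (lam1 '' Set.univ) A2 := fun hA A1 A2 he hne h0 =>
    nt_restrict (r := fun m l => r l m) (lam1 := lam2) (lam2 := lam1) h.swap hA A2 A1
      (by rw [he, Set.union_comm]) hne (exh_zero h0)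
  induction hA with
  | single x hx =>
    intro A1 A2 he
    have hx' : NT G k {x} := NT.single x hx
    refine ⟨hp1 hx' A1 A2 he, hp2 hx' A1 A2 he, ?_, ?_, ?_⟩
    · rcases h.cover x with ⟨v, hv⟩ | ⟨w, hw⟩
      · left
        refine ⟨v, ?_⟩
        rw [← h.mem1 A1 A2, ← he, hv]
        rfl
      · right
        refine ⟨w, ?_⟩
        rw [← h.mem2 A1 A2, ← he, hw]
        rfl
    · rw [← he]
      unfold cnt
      rw [Set.image_singleton, Set.ncard_singleton]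
      exact hx
    · rintro ⟨v, hv⟩ ⟨w, hw⟩
      exfalso
      have h1 : i v ∈ ({x} : Set X) := by rw [he]; exact Or.inl ⟨v, hv, rfl⟩
      have h2 : j w ∈ ({x} : Set X) := by rw [he]; exact Or.inr ⟨w, hw, rfl⟩
      exact h.disj v w (h1.trans h2.symm)
  | union Y Z hd hY hZ hYZ ihY ihZ =>
    intro A1 A2 hA
    have hT : NT G k (Y ∪ Z) := NT.union Y Z hd hY hZ hYZ
    set B1 := i ⁻¹' Y
    set B2 := j ⁻¹' Y
    set C1 := i ⁻¹' Z
    set C2 := j ⁻¹' Z
    have hYe : Y = i '' B1 ∪ j '' B2 := by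
      ext x
      rcases h.cover x with ⟨v, rfl⟩ | ⟨w, rfl⟩
      · rw [h.mem1]; rfl
      · rw [h.mem2]; rfl
    have hZe : Z = i '' C1 ∪ j '' C2 := by
      ext x
      rcases h.cover x with ⟨v, rfl⟩ | ⟨w, rfl⟩
      · rw [h.mem1]; rfl
      · rw [h.mem2]; rfl
    have hA1 : A1 = B1 ∪ C1 := by
      ext v
      rw [← h.mem1 A1 A2, ← hA]
      rfl
    have hA2 : A2 = B2 ∪ C2 := by
      ext v
      rw [← h.mem2 A1 A2, ← hA]
      rfl
    have hd1 : Disjoint B1 C1 := by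
      rw [Set.disjoint_left]
      exact fun v hv hv' => Set.disjoint_left.mp hd hv hv'
    have hd2 : Disjoint B2 C2 := by
      rw [Set.disjoint_left]
      exact fun v hv hv' => Set.disjoint_left.mp hd hv hv'
    have iB := ihY B1 B2 hYe
    have iC := ihZ C1 C2 hZe
    refine ⟨hp1 hT A1 A2 hA, hp2 hT A1 A2 hA, ?_, ?_, ?_⟩
    · rw [hA1, hA2]
      rcases iB.ne with h | h
      · exact Or.inl h.inl
      · exact Or.inr h.inl
    · rw [← hA]; exact nok_cnt hYZ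
    · intro hn1 hn2 he'
      rw [hYe, hZe] at hYZ
      rw [hA1, hA2] at he' ⊢
      exact st_all h hK iB iC hd1 hd2 hYZ he'

end

/-- From a tree to decorated shapes of bounded size. -/
theorem gn_of_nt (k : ℕ) (L M : Type) [Finite L] [Finite M] : ∃ N : ℕ,
    ∀ (V W X : Type) [Finite X] (G : SimpleGraph X) (G1 : SimpleGraph V) (G2 : SimpleGraph W)
      (i : V → X) (j : W → X) (lam1 : V → L) (lam2 : W → M) (r : L → M → Prop),
      Glued G G1 G2 i j (fun v w => r (lam1 v) (lam2 w)) → Nonempty V → Nonempty W →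
      NT G k Set.univ → Gn G1 G2 lam1 lam2 r k N Set.univ Set.univ := by
  set K := k + Nat.card L * Nat.card M with hKdef
  refine ⟨(4 * K + 4) * ((Nat.card L + Nat.card M) * (Nat.card (Dat L M) +
    Nat.card (Dat M L) + 3)) + 2 * K, ?_⟩
  intro V W X _ G G1 G2 i j lam1 lam2 r hg hV hW hT
  have hK : ∀ (p : Dat L M) (q : Dat M L), k + ov r p q ≤ K := fun p q =>
    Nat.add_le_add_left (ov_le r p q) k
  have he : (Set.univ : Set X) = i '' Set.univ ∪ j '' Set.univ := by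
    ext x
    rcases hg.cover x with ⟨v, rfl⟩ | ⟨w, rfl⟩ <;> simp
  have hI := iv_of_nt hg hK hT Set.univ Set.univ he
  have h1 : 1 ≤ eh lam1 lam2 Set.univ Set.univ := by
    unfold eh
    have h2 : lam1 hV.some ∈ exh lam1 Set.univ := by
      refine ⟨⟨_, Set.mem_univ _, rfl⟩, ?_⟩
      rw [Set.compl_univ, Set.image_empty]
      exact Set.notMem_empty _
    have h3 : 0 < (exh lam1 Set.univ).ncard :=
      (Set.ncard_pos (Set.toFinite _)).mpr ⟨_, h2⟩
    omega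
  obtain ⟨n, hn, hG⟩ := any_gn hg hK hI h1
  refine hG.mono ?_
  have h4 : eh lam1 lam2 Set.univ Set.univ ≤ Nat.card L + Nat.card M :=
    Nat.add_le_add (exh_le _ _) (exh_le _ _)
  have h5 : rh G1 G2 lam1 lam2 r Set.univ Set.univ ≤ Nat.card (Dat L M) + Nat.card (Dat M L) :=
    Nat.add_le_add (rkp_le _) (rkp_le _)
  have h6 := hn.mono h4 h5
  unfold Bd at h6
  omega

end Pool.Agent.R545.Nl
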