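import Mathlib

/-!
# Merging two histories with few simultaneous steps
-/

set_option autoImplicit false

namespace Pool.Agent.R545.Nl

/-- Paths in a grid: a path adds an item to the left history, to the right history, or to both of
them at once. -/
inductive Pth {α β : Type} (H : α → List α → List β → Prop) (V : β → List α → List β → Prop)
    (D : α → β → List α → List β → Prop) : ℕ → List α → List β → Prop
  | nil : Pth H V D 0 [] []
  | left {c : ℕ} {a : α} {xs : List α} {ys : List β} : Pth H V D c xs ys → H a xs ys →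
      Pth H V D c (a :: xs) ys
  | right {c : ℕ} {b : β} {xs : List α} {ys : List β} : Pth H V D c xs ys → V b xs ys →
      Pth H V D c xs (b :: ys)
  | diag {c : ℕ} {a : α} {b : β} {xs : List α} {ys : List β} : Pth H V D c xs ys → D a b xs ys →
      Pth H V D (c + 1) (a :: xs) (b :: ys)

section

variable {α β : Type}

/-- A left or a right step. -/
def LR (H : α → List α → List β → Prop) (V : β → List α → List β → Prop)
    (s s' : List α × List β) : Prop :=
  (∃ a, s'.1 = a :: s.1 ∧ s'.2 = s.2 ∧ H a s.1 s.2) ∨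
    (∃ b, s'.1 = s.1 ∧ s'.2 = b :: s.2 ∧ V b s.1 s.2)

/-- A simultaneous step. -/
def DG (D : α → β → List α → List β → Prop) (s s' : List α × List β) : Prop :=
  ∃ a b, s'.1 = a :: s.1 ∧ s'.2 = b :: s.2 ∧ D a b s.1 s.2

variable {H : α → List α → List β → Prop} {V : β → List α → List β → Prop}
  {D : α → β → List α → List β → Prop}

theorem Pth.free {c : ℕ} {s s' : List α × List β} (h : Pth H V D c s.1 s.2)
    (hf : Relation.ReflTransGen (LR H V) s s') : Pth H V D c s'.1 s'.2 := by
  induction hf with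
  | refl => exact h
  | tail _ hs ih =>
    rcases hs with ⟨a, h1, h2, h3⟩ | ⟨b, h1, h2, h3⟩
    · rw [h1, h2]
      exact Pth.left ih h3
    · rw [h1, h2]
      exact Pth.right ih h3

theorem Pth.exists_states {c : ℕ} {X : List α} {Y : List β} (h : Pth H V D c X Y) :
    ∃ (n : ℕ) (st : ℕ → List α × List β), st 0 = ([], []) ∧ st n = (X, Y) ∧
      ∀ t < n, LR H V (st t) (st (t + 1)) ∨ DG D (st t) (st (t + 1)) := by
  have ext : ∀ (n : ℕ) (st : ℕ → List α × List β) (s s' : List α × List β), st 0 = ([], []) →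
      st n = s → (∀ t < n, LR H V (st t) (st (t + 1)) ∨ DG D (st t) (st (t + 1))) →
      (LR H V s s' ∨ DG D s s') → ∃ (n : ℕ) (st : ℕ → List α × List β), st 0 = ([], []) ∧
      st n = s' ∧ ∀ t < n, LR H V (st t) (st (t + 1)) ∨ DG D (st t) (st (t + 1)) := by
    intro n st s s' h0 hn hst hs
    refine ⟨n + 1, fun t => if t ≤ n then st t else s', ?_, ?_, ?_⟩
    · simp [h0]
    · simp
    · intro t ht
      rcases Nat.lt_or_ge t n with h1 | h1
      · simp only [if_pos h1.le, if_pos (Nat.succ_le_of_lt h1)]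
        exact hst t h1
      · have h2 : t = n := by omega
        subst h2
        simp only [le_refl, if_true]
        rw [if_neg (by omega), hn]
        exact hs
  induction h with
  | nil => exact ⟨0, fun _ => ([], []), rfl, rfl, fun t ht => absurd ht (Nat.not_lt_zero t)⟩
  | @left c a xs ys _ hH ih =>
    obtain ⟨n, st, h0, hn, hst⟩ := ih
    exact ext n st _ (a :: xs, ys) h0 hn hst (Or.inl (Or.inl ⟨a, rfl, rfl, hH⟩))
  | @right c b xs ys _ hV ih =>
    obtain ⟨n, st, h0, hn, hst⟩ := ih
    exact ext n st _ (xs, b :: ys) h0 hn hst (Or.inl (Or.inr ⟨b, rfl, rfl, hV⟩))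
  | @diag c a b xs ys _ hD ih =>
    obtain ⟨n, st, h0, hn, hst⟩ := ih
    exact ext n st _ (a :: xs, b :: ys) h0 hn hst (Or.inr ⟨a, b, rfl, rfl, hD⟩)

end

section

variable {α β : Type} {K : ℕ} {l : List α → ℕ} {r : List β → ℕ} {m : α → List α → ℕ}
  {m1 : β → List β → ℕ} {P : α → List α → Prop} {Q : β → List β → Prop}

/-- The left items with a fixed right history. -/
theorem lefts {st : ℕ → List α × List β} {n : ℕ}
    (hF : ∀ t < n, (st (t + 1)).1 = (st t).1 ∨ ∃ a, (st (t + 1)).1 = a :: (st t).1 ∧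
      P a (st t).1 ∧ m a (st t).1 + r (st (t + 1)).2 ≤ K) (y : List β) {T : ℕ} :
    ∀ t3, T ≤ t3 → t3 ≤ n → (∀ t, T < t → t ≤ t3 → r y ≤ r (st t).2) →
    Relation.ReflTransGen (LR (fun a xs ys => P a xs ∧ m a xs + r ys ≤ K)
      (fun b xs ys => Q b ys ∧ m1 b ys + l xs ≤ K)) ((st T).1, y) ((st t3).1, y) := by
  intro t3 hT
  induction t3, hT using Nat.le_induction with
  | base => intro _ _; exact Relation.ReflTransGen.refl
  | succ t3 hT ih =>
    intro h1 h2
    have h3 := ih (by omega) (fun t ht ht' => h2 t ht (by omega))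
    rcases hF t3 (by omega) with h4 | ⟨a, h4, h5, h6⟩
    · rw [h4]
      exact h3
    · refine h3.tail (Or.inl ⟨a, h4, rfl, h5, ?_⟩)
      have := h2 (t3 + 1) (by omega) le_rfl
      dsimp only
      omega

/-- The right items with a fixed left history. -/
theorem rights {st : ℕ → List α × List β} {n : ℕ}
    (hF : ∀ t < n, (st (t + 1)).2 = (st t).2 ∨ ∃ b, (st (t + 1)).2 = b :: (st t).2 ∧
      Q b (st t).2 ∧ m1 b (st t).2 + l (st (t + 1)).1 ≤ K) (x : List α) {T : ℕ} :
    ∀ t3, T ≤ t3 → t3 ≤ n → (∀ t, T < t → t ≤ t3 → l x ≤ l (st t).1) →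
    Relation.ReflTransGen (LR (fun a xs ys => P a xs ∧ m a xs + r ys ≤ K)
      (fun b xs ys => Q b ys ∧ m1 b ys + l xs ≤ K)) (x, (st T).2) (x, (st t3).2) := by
  intro t3 hT
  induction t3, hT using Nat.le_induction with
  | base => intro _ _; exact Relation.ReflTransGen.refl
  | succ t3 hT ih =>
    intro h1 h2
    have h3 := ih (by omega) (fun t ht ht' => h2 t ht (by omega))
    rcases hF t3 (by omega) with h4 | ⟨a, h4, h5, h6⟩
    · rw [h4]
      exact h3
    · refine h3.tail (Or.inr ⟨a, rfl, h4, h5, ?_⟩)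
      have := h2 (t3 + 1) (by omega) le_rfl
      dsimp only
      omega

theorem lemS {st : ℕ → List α × List β} {n : ℕ}
    (hF1 : ∀ t < n, (st (t + 1)).1 = (st t).1 ∨ ∃ a, (st (t + 1)).1 = a :: (st t).1 ∧
      P a (st t).1 ∧ m a (st t).1 + r (st (t + 1)).2 ≤ K)
    (hF2 : ∀ t < n, (st (t + 1)).2 = (st t).2 ∨ ∃ b, (st (t + 1)).2 = b :: (st t).2 ∧
      Q b (st t).2 ∧ m1 b (st t).2 + l (st (t + 1)).1 ≤ K) :
    ∀ d T T1 : ℕ, T1 = T + d → T1 ≤ n →
    ((∀ t, T ≤ t → t ≤ T1 → r (st T).2 ≤ r (st t).2) ∨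
      (∀ t, T ≤ t → t ≤ T1 → l (st T).1 ≤ l (st t).1)) →
    Relation.ReflTransGen (LR (fun a xs ys => P a xs ∧ m a xs + r ys ≤ K)
      (fun b xs ys => Q b ys ∧ m1 b ys + l xs ≤ K)) (st T) (st T1) := by
  intro d
  induction d using Nat.strong_induction_on with
  | _ d ih =>
    intro T T1 hd hn hmin
    rcases Nat.eq_zero_or_pos d with h0 | h0
    · subst h0
      rw [hd, add_zero]
    · have hne : (Finset.Icc (T + 1) T1).Nonempty := ⟨T + 1, by rw [Finset.mem_Icc]; omega⟩
      rcases hmin with hmin | hmin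
      · obtain ⟨t3, ht3, h3⟩ := Finset.exists_min_image _ (fun t => l (st t).1) hne
        rw [Finset.mem_Icc] at ht3
        have h3' : ∀ t, T + 1 ≤ t → t ≤ T1 → l (st t3).1 ≤ l (st t).1 := fun t h h' =>
          h3 t (Finset.mem_Icc.2 ⟨h, h'⟩)
        have a1 := lefts (Q := Q) (m1 := m1) (l := l) hF1 (st T).2 (T := T) t3 (by omega)
          (by omega) (fun t ht ht' => hmin t ht.le (by omega))
        have a2 := rights (P := P) (m := m) (r := r) hF2 (st t3).1 (T := T) t3 (by omega)
          (by omega) (fun t ht ht' => h3' t ht (by omega))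
        have a3 := ih (T1 - t3) (by omega) t3 T1 (by omega) hn
          (Or.inr fun t ht ht' => h3' t (by omega) ht')
        exact (a1.trans a2).trans a3
      · obtain ⟨t3, ht3, h3⟩ := Finset.exists_min_image _ (fun t => r (st t).2) hne
        rw [Finset.mem_Icc] at ht3
        have h3' : ∀ t, T + 1 ≤ t → t ≤ T1 → r (st t3).2 ≤ r (st t).2 := fun t h h' =>
          h3 t (Finset.mem_Icc.2 ⟨h, h'⟩)
        have a1 := rights (P := P) (m := m) (r := r) hF2 (st T).1 (T := T) t3 (by omega)
          (by omega) (fun t ht ht' => hmin t ht.le (by omega))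
        have a2 := lefts (Q := Q) (m1 := m1) (l := l) hF1 (st t3).2 (T := T) t3 (by omega)
          (by omega) (fun t ht ht' => h3' t ht (by omega))
        have a3 := ih (T1 - t3) (by omega) t3 T1 (by omega) hn
          (Or.inl fun t ht ht' => h3' t (by omega) ht')
        exact (a1.trans a2).trans a3

end

/-- Few simultaneous steps suffice. -/
theorem pth_bound {α β : Type} (K B : ℕ) (l : List α → ℕ) (r : List β → ℕ)
    (m : α → List α → ℕ) (m1 : β → List β → ℕ) (P : α → List α → Prop) (Q : β → List β → Prop)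
    (D : α → β → List α → List β → Prop)
    (hD : ∀ a b xs ys, D a b xs ys → P a xs ∧ Q b ys ∧ m a xs + r (b :: ys) ≤ K ∧
      m1 b ys + l (a :: xs) ≤ K) {c : ℕ} {X : List α} {Y : List β}
    (h : Pth (fun a xs ys => P a xs ∧ m a xs + r ys ≤ K)
      (fun b xs ys => Q b ys ∧ m1 b ys + l xs ≤ K) D c X Y)
    (hB : ∀ xs, xs <:+ X → l xs ≤ B) :
    ∃ c1 ≤ B, Pth (fun a xs ys => P a xs ∧ m a xs + r ys ≤ K)
      (fun b xs ys => Q b ys ∧ m1 b ys + l xs ≤ K) D c1 X Y := by
  obtain ⟨n, st, h0, hn, hst⟩ := h.exists_states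
  have hF1 : ∀ t < n, (st (t + 1)).1 = (st t).1 ∨ ∃ a, (st (t + 1)).1 = a :: (st t).1 ∧
      P a (st t).1 ∧ m a (st t).1 + r (st (t + 1)).2 ≤ K := by
    intro t ht
    rcases hst t ht with (⟨a, h1, h2, h3, h4⟩ | ⟨b, h1, h2, h3⟩) | ⟨a, b, h1, h2, h3⟩
    · exact Or.inr ⟨a, h1, h3, by rw [h2]; exact h4⟩
    · exact Or.inl h1
    · obtain ⟨p1, _, p3, _⟩ := hD _ _ _ _ h3
      exact Or.inr ⟨a, h1, p1, by rw [h2]; exact p3⟩
  have hF2 : ∀ t < n, (st (t + 1)).2 = (st t).2 ∨ ∃ b, (st (t + 1)).2 = b :: (st t).2 ∧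
      Q b (st t).2 ∧ m1 b (st t).2 + l (st (t + 1)).1 ≤ K := by
    intro t ht
    rcases hst t ht with (⟨a, h1, h2, h3⟩ | ⟨b, h1, h2, h3, h4⟩) | ⟨a, b, h1, h2, h3⟩
    · exact Or.inl h2
    · exact Or.inr ⟨b, h2, h3, by rw [h1]; exact h4⟩
    · obtain ⟨_, p2, _, p4⟩ := hD _ _ _ _ h3
      exact Or.inr ⟨b, h2, p2, by rw [h1]; exact p4⟩
  have hsuf : ∀ t t', t ≤ t' → t' ≤ n → (st t).1 <:+ (st t').1 := by
    intro t t' htt
    induction t', htt using Nat.le_induction with
    | base => intro _; exact List.suffix_rfl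
    | succ t' _ ih =>
      intro h1
      refine (ih (by omega)).trans ?_
      rcases hF1 t' (by omega) with h2 | ⟨a, h2, _⟩
      · rw [h2]
      · rw [h2]
        exact List.suffix_cons _ _
  have hB' : ∀ t ≤ n, l (st t).1 ≤ B := by
    intro t ht
    refine hB _ ?_
    have := hsuf t n ht le_rfl
    rwa [hn] at this
  -- the main induction
  have key : ∀ n' ≤ n, ∀ v : ℕ, (∀ t ≤ n', v ≤ l (st t).1) →
      ∃ c1, c1 + v ≤ B ∧ Pth (fun a xs ys => P a xs ∧ m a xs + r ys ≤ K)
        (fun b xs ys => Q b ys ∧ m1 b ys + l xs ≤ K) D c1 (st n').1 (st n').2 := by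
    intro n'
    induction n' using Nat.strong_induction_on with
    | _ n' ih =>
      intro hn' v hv
      classical
      have hex : ∃ T, Relation.ReflTransGen (LR (fun a xs ys => P a xs ∧ m a xs + r ys ≤ K)
          (fun b xs ys => Q b ys ∧ m1 b ys + l xs ≤ K)) (st T) (st n') :=
        ⟨n', Relation.ReflTransGen.refl⟩
      obtain ⟨T, hT⟩ : ∃ T, T = Nat.find hex := ⟨_, rfl⟩
      have hTf := Nat.find_spec hex
      have hTmin : ∀ t, t < T → ¬ Relation.ReflTransGen (LR (fun a xs ys => P a xs ∧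
          m a xs + r ys ≤ K) (fun b xs ys => Q b ys ∧ m1 b ys + l xs ≤ K)) (st t) (st n') := by
        intro t ht
        rw [hT] at ht
        exact Nat.find_min hex ht
      have hTn : T ≤ n' := by
        rw [hT]
        exact Nat.find_min' hex Relation.ReflTransGen.refl
      rw [← hT] at hTf
      rcases Nat.eq_zero_or_pos T with hT0 | hT0
      · refine ⟨0, ?_, ?_⟩
        · have h1 := hv 0 (Nat.zero_le _)
          have h2 := hB' 0 (Nat.zero_le _)
          omega
        · rw [hT0] at hTf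
          refine Pth.free (s := st 0) ?_ hTf
          rw [h0]
          exact Pth.nil
      · have hne : (Finset.range T).Nonempty := ⟨0, Finset.mem_range.2 hT0⟩
        have hl : ∀ t < T, l (st T).1 < l (st t).1 := by
          by_contra hcon
          push Not at hcon
          obtain ⟨t1, ht1, ht1'⟩ := hcon
          obtain ⟨T0, hT0', hm⟩ := Finset.exists_min_image _ (fun t => l (st t).1) hne
          rw [Finset.mem_range] at hT0'
          refine hTmin T0 hT0' ((lemS (P := P) (Q := Q) (m := m) (m1 := m1) hF1 hF2 (T - T0) T0 T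
            (by omega) (by omega) (Or.inr ?_)).trans hTf)
          intro t _ ht
          rcases Nat.lt_or_ge t T with h2 | h2
          · exact hm t (Finset.mem_range.2 h2)
          · have : t = T := by omega
            rw [this]
            exact (hm t1 (Finset.mem_range.2 ht1)).trans ht1'
        have hr : ∀ t < T, r (st T).2 < r (st t).2 := by
          by_contra hcon
          push Not at hcon
          obtain ⟨t1, ht1, ht1'⟩ := hcon
          obtain ⟨T0, hT0', hm⟩ := Finset.exists_min_image _ (fun t => r (st t).2) hne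
          rw [Finset.mem_range] at hT0'
          refine hTmin T0 hT0' ((lemS (P := P) (Q := Q) (m := m) (m1 := m1) hF1 hF2 (T - T0) T0 T
            (by omega) (by omega) (Or.inl ?_)).trans hTf)
          intro t _ ht
          rcases Nat.lt_or_ge t T with h2 | h2
          · exact hm t (Finset.mem_range.2 h2)
          · have : t = T := by omega
            rw [this]
            exact (hm t1 (Finset.mem_range.2 ht1)).trans ht1'
        obtain ⟨T', rfl⟩ : ∃ T', T = T' + 1 := ⟨T - 1, by omega⟩
        have hl' := hl T' (Nat.lt_succ_self _)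
        have hr' := hr T' (Nat.lt_succ_self _)
        rcases hst T' (by omega) with (⟨a, h1, h2, h3⟩ | ⟨b, h1, h2, h3⟩) | ⟨a, b, h1, h2, h3⟩
        · rw [h2] at hr'
          exact absurd hr' (lt_irrefl _)
        · rw [h1] at hl'
          exact absurd hl' (lt_irrefl _)
        · obtain ⟨c1, hc1, hp⟩ := ih T' (by omega) (by omega) (v + 1) (by
            intro t ht
            have := hl t (by omega)
            have := hv (T' + 1) (by omega)
            omega)
          refine ⟨c1 + 1, by omega, ?_⟩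
          refine Pth.free (s := st (T' + 1)) ?_ hTf
          rw [h1, h2]
          exact Pth.diag hp h3
  obtain ⟨c1, hc1, hp⟩ := key n le_rfl 0 (fun t _ => Nat.zero_le _)
  rw [hn] at hp
  exact ⟨c1, by omega, hp⟩

end Pool.Agent.R545.Nl
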