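import Pool.Agent.R545.Nl.Back
import Pool.Agent.R545.Nl.Path
import Pool.Agent.R545.Mw.Trunk

/-!
# From a tree to decorated shapes of bounded size
-/

namespace Pool.Agent.R545.Nl

open Classical Pool.Agent.R545.Lc Pool.Agent.R545.Mw

section

variable {V W X L M : Type} {G : SimpleGraph X} {G1 : SimpleGraph V} {G2 : SimpleGraph W}
  {i : V → X} {j : W → X} {lam1 : V → L} {lam2 : W → M} {r : L → M → Prop} {k : ℕ}

theorem Sg1.snoc {F0 F : Set M} {p : Dat L M} {A C : Set V} {w : Wd}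
    (h : Sg1 k G1 lam1 r F0 F p A w C) {B : Set V} (hd : Disjoint C B)
    (hB : PT k G1 lam1 r F0 B) (hp : dat G1 lam1 r (C ∪ B) = p) :
    Sg1 k G1 lam1 r F0 F p A ((w ++ [((), mc G1 lam1 r F F0 F C B)]) ++
      [((), alpha G1 lam1 r (C ∪ B) F)]) (C ∪ B) := by
  induction h with
  | nil A hA => exact Sg1.cons hA hd hB (Sg1.nil _ hp)
  | cons hA hd' hB' _ ih => exact Sg1.cons hA hd' hB' (ih hd hp)

theorem Sg1.last {F0 F : Set M} {p : Dat L M} {A C : Set V} {w : Wd}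
    (h : Sg1 k G1 lam1 r F0 F p A w C) : dat G1 lam1 r C = p ∧
      ∃ w', w = w' ++ [((), alpha G1 lam1 r C F)] := by
  induction h with
  | nil A hA => exact ⟨hA, [], rfl⟩
  | @cons A B C w _ _ _ _ ih =>
    obtain ⟨h1, w', rfl⟩ := ih
    exact ⟨h1, ((), alpha G1 lam1 r A F) :: ((), mc G1 lam1 r F F0 F A B) :: w', rfl⟩

theorem ov_le [Finite L] [Finite M] (r : L → M → Prop) (p : Dat L M) (q : Dat M L) :
    ov r p q ≤ Nat.card L * Nat.card M := by
  unfold ov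
  refine (Set.ncard_image_le (Set.toFinite _)).trans ?_
  refine (Set.ncard_le_ncard (Set.subset_univ _) Set.finite_univ).trans ?_
  rw [Set.ncard_univ, Nat.card_prod]

/-- Decorated shapes with at most `n` leaves. -/
def Gn (G1 : SimpleGraph V) (G2 : SimpleGraph W) (lam1 : V → L) (lam2 : W → M)
    (r : L → M → Prop) (k n : ℕ) (A1 : Set V) (A2 : Set W) : Prop :=
  ∃ (s : Sh (Bt k L M)) (t : Sh (Bt k M L)), Rl k G1 lam1 r (lam2 '' Set.univ) s A1 ∧
    Rl k G2 lam2 (fun m l => r l m) (lam1 '' Set.univ) t A2 ∧ Sh.Rel (RD k r) s t ∧ s.leaves ≤ n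

/-- The same, the root being a node. -/
def Gt (G1 : SimpleGraph V) (G2 : SimpleGraph W) (lam1 : V → L) (lam2 : W → M)
    (r : L → M → Prop) (k n : ℕ) (A1 : Set V) (A2 : Set W) : Prop :=
  ∃ (b : Bt k L M) (b' : Bt k M L) (s s' : Sh (Bt k L M)) (t t' : Sh (Bt k M L)),
    Rl k G1 lam1 r (lam2 '' Set.univ) (Sh.node b s s') A1 ∧
    Rl k G2 lam2 (fun m l => r l m) (lam1 '' Set.univ) (Sh.node b' t t') A2 ∧
    Sh.Rel (RD k r) (Sh.node b s s') (Sh.node b' t t') ∧ (Sh.node b s s').leaves ≤ n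

theorem Gt.gn {n : ℕ} {A1 : Set V} {A2 : Set W} (h : Gt G1 G2 lam1 lam2 r k n A1 A2) :
    Gn G1 G2 lam1 lam2 r k n A1 A2 := by
  obtain ⟨b, b', s, s', t, t', h1, h2, h3, h4⟩ := h
  exact ⟨_, _, h1, h2, h3, h4⟩

theorem Gn.mono {n m : ℕ} {A1 : Set V} {A2 : Set W} (h : Gn G1 G2 lam1 lam2 r k n A1 A2)
    (hnm : n ≤ m) : Gn G1 G2 lam1 lam2 r k m A1 A2 := by
  obtain ⟨s, t, h1, h2, h3, h4⟩ := h
  exact ⟨s, t, h1, h2, h3, h4.trans hnm⟩

theorem Gt.mono {n m : ℕ} {A1 : Set V} {A2 : Set W} (h : Gt G1 G2 lam1 lam2 r k n A1 A2)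
    (hnm : n ≤ m) : Gt G1 G2 lam1 lam2 r k m A1 A2 := by
  obtain ⟨b, b', s, s', t, t', h1, h2, h3, h4⟩ := h
  exact ⟨b, b', s, s', t, t', h1, h2, h3, h4.trans hnm⟩

theorem gn_pure1 {A1 : Set V} (h : PT k G1 lam1 r (lam2 '' Set.univ) A1) :
    Gn G1 G2 lam1 lam2 r k 1 A1 ∅ :=
  ⟨_, _, Rl.pure h, Rl.empty, Sh.Rel.leaf (by simp [RD]), le_rfl⟩

theorem gn_pure2 {A2 : Set W} (h : PT k G2 lam2 (fun m l => r l m) (lam1 '' Set.univ) A2) :
    Gn G1 G2 lam1 lam2 r k 1 ∅ A2 :=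
  ⟨_, _, Rl.empty, Rl.pure h, Sh.Rel.leaf (by simp [RD]), le_rfl⟩

variable [Finite X]

theorem cnt_ok (h : Glued G G1 G2 i j (fun v w => r (lam1 v) (lam2 w))) (A1 : Set V)
    (A2 : Set W) : alpha G1 lam1 r A1 (dat G2 lam2 (fun m l => r l m) A2).fut +
      alpha G2 lam2 (fun m l => r l m) A2 (dat G1 lam1 r A1).fut ≤
      k + ov r (dat G1 lam1 r A1) (dat G2 lam2 (fun m l => r l m) A2) ↔
      cnt G (i '' A1 ∪ j '' A2) ≤ k := by
  have h1 := glued_cnt h A1 A2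
  omega

theorem gt_node (h : Glued G G1 G2 i j (fun v w => r (lam1 v) (lam2 w))) {n m : ℕ}
    {A1 B1 : Set V} {A2 B2 : Set W} (hA : Gn G1 G2 lam1 lam2 r k n A1 A2)
    (hB : Gn G1 G2 lam1 lam2 r k m B1 B2) (hd1 : Disjoint A1 B1) (hd2 : Disjoint A2 B2)
    (hN : NOk G k (i '' A1 ∪ j '' A2) (i '' B1 ∪ j '' B2)) :
    Gt G1 G2 lam1 lam2 r k (n + m) (A1 ∪ B1) (A2 ∪ B2) := by
  obtain ⟨s, t, a1, a2, a3, a4⟩ := hA
  obtain ⟨s', t', b1, b2, b3, b4⟩ := hB
  have hc := nok_cnt hN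
  rw [union_glued] at hc
  obtain ⟨σ, τ, h1, h2, h3⟩ := (nok_iff_compat h A1 B1 A2 B2).mp hN
  refine ⟨_, _, _, _, _, _,
    Rl.node (q1 := dat G2 lam2 (fun m l => r l m) A2) (q2 := dat G2 lam2 (fun m l => r l m) B2)
      (q := dat G2 lam2 (fun m l => r l m) (A2 ∪ B2)) hd1 a1 b1 h1 (Sg1.nil _ rfl),
    Rl.node (q1 := dat G1 lam1 r A1) (q2 := dat G1 lam1 r B1)
      (q := dat G1 lam1 r (A1 ∪ B1)) hd2 a2 b2 h2 (Sg1.nil _ rfl),
    Sh.Rel.node ?_ a3 b3, ?_⟩
  · simp only [RD, Prod.swap_prod_mk, true_and]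
    exact ⟨h3, NW.single ((cnt_ok h _ _).mpr hc)⟩
  · simp only [Sh.leaves]
    omega

theorem gt_left (h : Glued G G1 G2 i j (fun v w => r (lam1 v) (lam2 w))) {n : ℕ}
    {A1 B : Set V} {A2 : Set W} (hA : Gt G1 G2 lam1 lam2 r k n A1 A2) (hd : Disjoint A1 B)
    (hB : PT k G1 lam1 r (lam2 '' Set.univ) B)
    (hdat : dat G1 lam1 r (A1 ∪ B) = dat G1 lam1 r A1)
    (hk : mc G1 lam1 r (lam2 '' A2ᶜ) (lam2 '' Set.univ) (lam2 '' A2ᶜ) A1 B +
      alpha G2 lam2 (fun m l => r l m) A2 (lam1 '' A1ᶜ) ≤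
      k + ov r (dat G1 lam1 r A1) (dat G2 lam2 (fun m l => r l m) A2)) :
    Gt G1 G2 lam1 lam2 r k n (A1 ∪ B) A2 := by
  have hN := nok_left h hB.nonempty hdat hk
  have hc := nok_cnt hN
  have e : i '' (A1 ∪ B) ∪ j '' A2 = (i '' A1 ∪ j '' A2) ∪ i '' B := by
    rw [Set.image_union, Set.union_assoc, Set.union_assoc, Set.union_comm (i '' B)]
  rw [← e, ← cnt_ok (r := r) (lam1 := lam1) (lam2 := lam2) h, hdat] at hc
  obtain ⟨b, b', s, s', t, t', h1, h2, h3, h4⟩ := hA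
  cases h1 with
  | @node A A' _ _ _ σ q1 q2 q w hx hs hs' hPL hch =>
    cases h2 with
    | @node C C' _ _ _ τ p1 p2 p w' hy ht ht' hPL' hch' =>
      cases h3 with
      | node hw hw1 hw2 =>
        simp only [RD, Prod.swap_prod_mk, Prod.mk.injEq] at hw
        obtain ⟨⟨rfl, rfl⟩, ⟨rfl, rfl⟩, ⟨rfl, rfl⟩, hcm, hw⟩ := hw
        obtain ⟨e1, w1, hw1'⟩ := hch.last
        obtain ⟨e2, w2, hw2'⟩ := hch'.last
        have f1 : (dat G1 lam1 r A1).fut = lam1 '' A1ᶜ := rfl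
        have f2 : (dat G2 lam2 (fun m l => r l m) A2).fut = lam2 '' A2ᶜ := rfl
        have g1 : lam1 '' A1ᶜ = (dat G1 lam1 r (A ∪ A')).fut := by rw [← e1]; rfl
        have g2 : lam2 '' A2ᶜ = (dat G2 lam2 (fun m l => r l m) (C ∪ C')).fut := by
          rw [← e2]; rfl
        rw [f1, f2, e1, e2, g1, g2] at hc
        rw [e1, e2, g1, g2] at hk
        refine ⟨_, _, _, _, _, _,
          Rl.node (q1 := dat G2 lam2 (fun m l => r l m) C)
            (q2 := dat G2 lam2 (fun m l => r l m) C')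
            (q := dat G2 lam2 (fun m l => r l m) (C ∪ C')) hx hs hs' hPL
            (hch.snoc hd hB (hdat.trans e1)),
          Rl.node (q1 := dat G1 lam1 r A) (q2 := dat G1 lam1 r A')
            (q := dat G1 lam1 r (A ∪ A')) hy ht ht' hPL' hch',
          Sh.Rel.node ?_ hw1 hw2, h4⟩
        simp only [RD, Prod.swap_prod_mk, true_and]
        refine ⟨hcm, ?_⟩
        refine NW.snoc_left (NW.snoc_left hw (b := ((), alpha G2 lam2 (fun m l => r l m) A2
          (dat G1 lam1 r (A ∪ A')).fut)) ?_ w2 hw2') (b := ((), alpha G2 lam2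
          (fun m l => r l m) A2 (dat G1 lam1 r (A ∪ A')).fut)) ?_ w2 hw2'
        · exact hk
        · exact hc

omit [Finite X] in
theorem RD.swap {b : Bt k L M} {b' : Bt k M L} (h : RD k r b b') :
    RD k (fun m l => r l m) b' b := by
  rcases b with b | ⟨x, w⟩
  · rcases b' with b' | ⟨y, w'⟩
    · simp only [RD] at h ⊢
      rw [h, Bool.not_not]
    · exact h
  · rcases b' with b' | ⟨y, w'⟩
    · exact h
    · simp only [RD] at h ⊢
      obtain ⟨h1, h2, h3, ⟨c1, c2, c3, c4, c5, c6, c7, c8⟩, hw⟩ := h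
      refine ⟨by rw [← h1, Prod.swap_swap], by rw [← h2, Prod.swap_swap],
        by rw [← h3, Prod.swap_swap], ⟨c2, c1, c4, c3, c8, c7, c6, c5⟩, ?_⟩
      have h4 := hw.swap
      rw [← h3, Prod.fst_swap, Prod.snd_swap, ov_swap]
      exact h4.imp fun a b _ hab => by rw [add_comm]; exact hab

theorem rel_swap {β γ : Type} {R : β → γ → Prop} {R' : γ → β → Prop} {s : Sh β} {t : Sh γ}
    (h : Sh.Rel R s t) (hR : ∀ b c, R b c → R' c b) : Sh.Rel R' t s := by
  induction h with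
  | leaf h => exact Sh.Rel.leaf (hR _ _ h)
  | node h _ _ ih1 ih2 => exact Sh.Rel.node (hR _ _ h) ih1 ih2

theorem rel_leaves {β γ : Type} {R : β → γ → Prop} {s : Sh β} {t : Sh γ}
    (h : Sh.Rel R s t) : s.leaves = t.leaves := by
  induction h with
  | leaf h => rfl
  | node h _ _ ih1 ih2 =>
    simp only [Sh.leaves]
    omega

omit [Finite X] in
theorem Gt.swap {n : ℕ} {A1 : Set V} {A2 : Set W} (hA : Gt G1 G2 lam1 lam2 r k n A1 A2) :
    Gt G2 G1 lam2 lam1 (fun m l => r l m) k n A2 A1 := by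
  obtain ⟨b, b', s, s', t, t', h1, h2, h3, h4⟩ := hA
  refine ⟨b', b, t, t', s, s', h2, h1, rel_swap h3 fun b c hbc => hbc.swap, ?_⟩
  rw [← rel_leaves h3]
  exact h4

theorem gt_right (h : Glued G G1 G2 i j (fun v w => r (lam1 v) (lam2 w))) {n : ℕ}
    {A1 : Set V} {A2 B : Set W} (hA : Gt G1 G2 lam1 lam2 r k n A1 A2) (hd : Disjoint A2 B)
    (hB : PT k G2 lam2 (fun m l => r l m) (lam1 '' Set.univ) B)
    (hdat : dat G2 lam2 (fun m l => r l m) (A2 ∪ B) = dat G2 lam2 (fun m l => r l m) A2)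
    (hk : mc G2 lam2 (fun m l => r l m) (lam1 '' A1ᶜ) (lam1 '' Set.univ) (lam1 '' A1ᶜ) A2 B +
      alpha G1 lam1 r A1 (lam2 '' A2ᶜ) ≤
      k + ov r (dat G1 lam1 r A1) (dat G2 lam2 (fun m l => r l m) A2)) :
    Gt G1 G2 lam1 lam2 r k n A1 (A2 ∪ B) := by
  rw [← ov_swap] at hk
  exact (gt_left (r := fun m l => r l m) (lam1 := lam2) (lam2 := lam1) h.swap hA.swap hd hB
    hdat hk).swap

/-! ### Stable parts with diagonal steps -/

/-- The set given by a history. -/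
def cur {V : Type} (a : Set V) : List (Set V) → Set V
  | [] => a
  | z :: zs => cur a zs ∪ z

/-- The condition of a step of one side. -/
def StP (k : ℕ) (G1 : SimpleGraph V) (lam1 : V → L) (r : L → M → Prop) (F0 : Set M)
    (a z : Set V) (zs : List (Set V)) : Prop :=
  Disjoint (cur a zs) z ∧ PT k G1 lam1 r F0 z ∧
    dat G1 lam1 r (cur a zs) = dat G1 lam1 r a ∧
    dat G1 lam1 r (cur a zs ∪ z) = dat G1 lam1 r a

/-- The condition of a diagonal step. -/
def StD (G : SimpleGraph X) (G1 : SimpleGraph V) (G2 : SimpleGraph W) (i : V → X) (j : W → X)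
    (lam1 : V → L) (lam2 : W → M) (r : L → M → Prop) (k : ℕ) (a : Set V) (b : Set W)
    (z : Set V) (y : Set W) (zs : List (Set V)) (ys : List (Set W)) : Prop :=
  StP k G1 lam1 r (lam2 '' Set.univ) a z zs ∧
  StP k G2 lam2 (fun m l => r l m) (lam1 '' Set.univ) b y ys ∧
  dat G1 lam1 r (cur a zs) = dat G1 lam1 r a ∧
  dat G2 lam2 (fun m l => r l m) (cur b ys) = dat G2 lam2 (fun m l => r l m) b ∧
  NOk G k (i '' cur a zs ∪ j '' cur b ys) (i '' z ∪ j '' y) ∧ NOk G k (i '' z) (j '' y) ∧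
  lam1 '' Set.univ ⊆ lam1 '' zᶜ ∧ lam2 '' Set.univ ⊆ lam2 '' yᶜ

/-- Paths in a stable part. -/
def Pt (G : SimpleGraph X) (G1 : SimpleGraph V) (G2 : SimpleGraph W) (i : V → X) (j : W → X)
    (lam1 : V → L) (lam2 : W → M) (r : L → M → Prop) (k : ℕ) (a : Set V) (b : Set W)
    (c : ℕ) (zs : List (Set V)) (ys : List (Set W)) : Prop :=
  Pth
    (fun z zs ys => StP k G1 lam1 r (lam2 '' Set.univ) a z zs ∧
      mc G1 lam1 r (dat G2 lam2 (fun m l => r l m) b).fut (lam2 '' Set.univ)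
        (dat G2 lam2 (fun m l => r l m) b).fut (cur a zs) z +
      alpha G2 lam2 (fun m l => r l m) (cur b ys) (dat G1 lam1 r a).fut ≤
        k + ov r (dat G1 lam1 r a) (dat G2 lam2 (fun m l => r l m) b))
    (fun y zs ys => StP k G2 lam2 (fun m l => r l m) (lam1 '' Set.univ) b y ys ∧
      mc G2 lam2 (fun m l => r l m) (dat G1 lam1 r a).fut (lam1 '' Set.univ)
        (dat G1 lam1 r a).fut (cur b ys) y +
      alpha G1 lam1 r (cur a zs) (dat G2 lam2 (fun m l => r l m) b).fut ≤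
        k + ov r (dat G1 lam1 r a) (dat G2 lam2 (fun m l => r l m) b))
    (fun z y zs ys => StD G G1 G2 i j lam1 lam2 r k a b z y zs ys) c zs ys

/-- The lower bounds for a diagonal step. -/
theorem std_le (h : Glued G G1 G2 i j (fun v w => r (lam1 v) (lam2 w))) {a z : Set V}
    {b y : Set W} {zs : List (Set V)} {ys : List (Set W)}
    (hD : StD G G1 G2 i j lam1 lam2 r k a b z y zs ys) :
    mc G1 lam1 r (dat G2 lam2 (fun m l => r l m) b).fut (lam2 '' Set.univ)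
        (dat G2 lam2 (fun m l => r l m) b).fut (cur a zs) z +
      alpha G2 lam2 (fun m l => r l m) (cur b (y :: ys)) (dat G1 lam1 r a).fut ≤
        k + ov r (dat G1 lam1 r a) (dat G2 lam2 (fun m l => r l m) b) := by
  obtain ⟨⟨-, -, a1, a2⟩, ⟨-, -, b1, b2⟩, -, -, hN, -, e1, e2⟩ := hD
  have h1 := nok_ge h hN
  have h2 : lam2 '' (cur b ys)ᶜ = (dat G2 lam2 (fun m l => r l m) b).fut := by rw [← b1]; rfl
  have h3 : lam2 '' (cur b ys ∪ y)ᶜ = (dat G2 lam2 (fun m l => r l m) b).fut := by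
    rw [← b2]; rfl
  have h4 : lam1 '' (cur a zs ∪ z)ᶜ = (dat G1 lam1 r a).fut := by rw [← a2]; rfl
  rw [h2, h3, h4, compl_full e2, a2, b2] at h1
  exact h1

theorem StD.swap {a z : Set V} {b y : Set W} {zs : List (Set V)} {ys : List (Set W)}
    (hD : StD G G1 G2 i j lam1 lam2 r k a b z y zs ys) :
    StD G G2 G1 j i lam2 lam1 (fun m l => r l m) k b a y z ys zs := by
  obtain ⟨h1, h2, h3, h4, h5, h6, h7, h8⟩ := hD
  refine ⟨h2, h1, h4, h3, ?_, h6.symm, h8, h7⟩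
  rw [Set.union_comm (j '' cur b ys), Set.union_comm (j '' y)]
  exact h5

theorem std_le' (h : Glued G G1 G2 i j (fun v w => r (lam1 v) (lam2 w))) {a z : Set V}
    {b y : Set W} {zs : List (Set V)} {ys : List (Set W)}
    (hD : StD G G1 G2 i j lam1 lam2 r k a b z y zs ys) :
    mc G2 lam2 (fun m l => r l m) (dat G1 lam1 r a).fut (lam1 '' Set.univ)
        (dat G1 lam1 r a).fut (cur b ys) y +
      alpha G1 lam1 r (cur a (z :: zs)) (dat G2 lam2 (fun m l => r l m) b).fut ≤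
        k + ov r (dat G1 lam1 r a) (dat G2 lam2 (fun m l => r l m) b) := by
  have := std_le (r := fun m l => r l m) (lam1 := lam2) (lam2 := lam1) h.swap hD.swap
  rw [ov_swap] at this
  exact this

/-- Stable parts on top of a node. -/
def Tp (G : SimpleGraph X) (G1 : SimpleGraph V) (G2 : SimpleGraph W) (i : V → X) (j : W → X)
    (lam1 : V → L) (lam2 : W → M) (r : L → M → Prop) (k n : ℕ) (A1 : Set V) (A2 : Set W) :
    Prop :=
  ∃ (a : Set V) (b : Set W) (zs : List (Set V)) (ys : List (Set W)) (c : ℕ),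
    Gt G1 G2 lam1 lam2 r k n a b ∧ Pt G G1 G2 i j lam1 lam2 r k a b c zs ys ∧
    cur a zs = A1 ∧ cur b ys = A2 ∧ dat G1 lam1 r A1 = dat G1 lam1 r a ∧
    dat G2 lam2 (fun m l => r l m) A2 = dat G2 lam2 (fun m l => r l m) b

/-- The levels along a path are bounded. -/
theorem pt_level (h : Glued G G1 G2 i j (fun v w => r (lam1 v) (lam2 w))) {a : Set V}
    {b : Set W} {c : ℕ} {zs : List (Set V)} {ys : List (Set W)}
    (hP : Pt G G1 G2 i j lam1 lam2 r k a b c zs ys) : ∀ xs, xs <:+ zs → xs ≠ zs →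
      alpha G1 lam1 r (cur a xs) (dat G2 lam2 (fun m l => r l m) b).fut ≤
        k + ov r (dat G1 lam1 r a) (dat G2 lam2 (fun m l => r l m) b) := by
  have hV : Finite V := Finite.of_injective i h.inj1
  unfold Pt at hP
  induction hP with
  | nil =>
    intro xs hx hne
    exact absurd (List.suffix_nil.mp hx) hne
  | @left c z xs' ys _ hH ih =>
    intro xs hx hne
    rcases List.suffix_cons_iff.mp hx with hx | hx
    · exact absurd hx hne
    · by_cases he : xs = xs'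
      · rw [he]
        have h1 := alpha_le_mc G1 lam1 r (dat G2 lam2 (fun m l => r l m) b).fut
          (lam2 '' Set.univ) (dat G2 lam2 (fun m l => r l m) b).fut (cur a xs') z
        have h2 := hH.2
        omega
      · exact ih xs hx he
  | right _ _ ih => exact ih
  | @diag c z y xs' ys _ hH ih =>
    intro xs hx hne
    rcases List.suffix_cons_iff.mp hx with hx | hx
    · exact absurd hx hne
    · by_cases he : xs = xs'
      · rw [he]
        have h1 := alpha_le_mc G1 lam1 r (dat G2 lam2 (fun m l => r l m) b).fut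
          (lam2 '' Set.univ) (dat G2 lam2 (fun m l => r l m) b).fut (cur a xs') z
        have h2 := std_le h hH
        omega
      · exact ih xs hx he

/-- Closing a stable part. -/
theorem tp_close (h : Glued G G1 G2 i j (fun v w => r (lam1 v) (lam2 w))) {n K : ℕ}
    {A1 : Set V} {A2 : Set W} (hT : Tp G G1 G2 i j lam1 lam2 r k n A1 A2)
    (hc : cnt G (i '' A1 ∪ j '' A2) ≤ k)
    (hK : ∀ (p : Dat L M) (q : Dat M L), k + ov r p q ≤ K) :
    Gt G1 G2 lam1 lam2 r k (n + 2 * K) A1 A2 := by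
  obtain ⟨a, b, zs, ys, c, hG, hP, rfl, rfl, e1, e2⟩ := hT
  rw [← cnt_ok (r := r) (lam1 := lam1) (lam2 := lam2) h, e1, e2] at hc
  obtain ⟨c', hc', hP'⟩ := pth_bound (k + ov r (dat G1 lam1 r a)
    (dat G2 lam2 (fun m l => r l m) b)) (k + ov r (dat G1 lam1 r a)
    (dat G2 lam2 (fun m l => r l m) b))
    (fun xs => alpha G1 lam1 r (cur a xs) (dat G2 lam2 (fun m l => r l m) b).fut)
    (fun ys => alpha G2 lam2 (fun m l => r l m) (cur b ys) (dat G1 lam1 r a).fut)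
    _ _ _ _ (fun z y zs ys => StD G G1 G2 i j lam1 lam2 r k a b z y zs ys)
    (fun z y zs ys hD => ⟨hD.1, hD.2.1, std_le h hD, std_le' h hD⟩) hP (by
      intro xs hx
      by_cases he : xs = zs
      · rw [he]
        omega
      · exact pt_level h hP xs hx he)
  have key : ∀ {c : ℕ} {zs : List (Set V)} {ys : List (Set W)},
      Pt G G1 G2 i j lam1 lam2 r k a b c zs ys →
      Gt G1 G2 lam1 lam2 r k (n + 2 * c) (cur a zs) (cur b ys) ∧
      dat G1 lam1 r (cur a zs) = dat G1 lam1 r a ∧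
      dat G2 lam2 (fun m l => r l m) (cur b ys) = dat G2 lam2 (fun m l => r l m) b := by
    intro c zs ys hP
    unfold Pt at hP
    induction hP with
    | nil => exact ⟨hG, rfl, rfl⟩
    | @left c z xs ys _ hH ih =>
      obtain ⟨ih1, ih2, ih3⟩ := ih
      obtain ⟨⟨s1, s2, s3, s4⟩, s5⟩ := hH
      refine ⟨gt_left h ih1 s1 s2 (s4.trans s3.symm) ?_, s4, ih3⟩
      have f1 : lam1 '' (cur a xs)ᶜ = (dat G1 lam1 r a).fut := by rw [← ih2]; rfl
      have f2 : lam2 '' (cur b ys)ᶜ = (dat G2 lam2 (fun m l => r l m) b).fut := by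
        rw [← ih3]; rfl
      rw [f1, f2, ih2, ih3]
      exact s5
    | @right c y xs ys _ hH ih =>
      obtain ⟨ih1, ih2, ih3⟩ := ih
      obtain ⟨⟨s1, s2, s3, s4⟩, s5⟩ := hH
      refine ⟨gt_right h ih1 s1 s2 (s4.trans s3.symm) ?_, ih2, s4⟩
      have f1 : lam1 '' (cur a xs)ᶜ = (dat G1 lam1 r a).fut := by rw [← ih2]; rfl
      have f2 : lam2 '' (cur b ys)ᶜ = (dat G2 lam2 (fun m l => r l m) b).fut := by
        rw [← ih3]; rfl
      rw [f1, f2, ih2, ih3]
      exact s5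
    | @diag c z y xs ys _ hH ih =>
      obtain ⟨ih1, ih2, ih3⟩ := ih
      obtain ⟨⟨s1, s2, s3, s4⟩, ⟨t1, t2, t3, t4⟩, -, -, hN, hN', -, -⟩ := hH
      refine ⟨?_, s4, t4⟩
      have h1 := gt_node h (gn_pure1 (G2 := G2) s2) (gn_pure2 (G1 := G1) t2)
        (Set.disjoint_empty _) (Set.empty_disjoint _)
        (by rw [Set.image_empty, Set.union_empty, Set.image_empty, Set.empty_union]; exact hN')
      rw [Set.union_empty, Set.empty_union] at h1
      exact (gt_node h ih1.gn h1.gn s1 t1 hN).mono (by omega)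
  have h1 := (key hP').1
  obtain ⟨b1, b2, s1, s2, s3, s4, h2, h3, h4, h5⟩ := h1
  refine ⟨b1, b2, s1, s2, s3, s4, h2, h3, h4, h5.trans ?_⟩
  have := hK (dat G1 lam1 r a) (dat G2 lam2 (fun m l => r l m) b)
  omega

end

end Pool.Agent.R545.Nl
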